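import Pool.Agent.Lib.MP_95edb1_lc.CertData

set_option autoImplicit false

/-!
# Certificate check

Everything here is about natural numbers.  The searcher sits at the ports `0, …, 4` of a chain of
four cells `0, …, 3`; port `p` is between the cells `p - 1` and `p`.
-/

namespace Pool.Agent.MP_95edb1_lc.Cert

/-- twice the survival factor of a step of the searcher from port `p` to port `p'`, during which
the hider goes from cell `c` to cell `c'` -/
def g (p c p' c' : ℕ) : ℕ :=
  bif Nat.blt c p == Nat.blt c' p' then 2 else bif Nat.beq p p' then 0 else 1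

/-- region of a cell -/
def reg : ℕ → ℕ
  | 0 => 0
  | 1 => 1
  | 2 => 1
  | _ => 2

/-- the tables -/
def tab : ℕ → ℕ
  | 0 => tab0
  | 1 => tab1
  | _ => tab2

/-- the tables of combinations, for the middle cell `c` -/
def rec' : ℕ → ℕ → ℕ → ℕ
  | 0, _, 0 => rec000
  | 0, _, 1 => rec001
  | 0, _, _ => rec002
  | 1, 1, 0 => rec110
  | 1, 1, 1 => rec111
  | 1, 1, _ => rec112
  | 1, _, 0 => rec120
  | 1, _, 1 => rec121
  | 1, _, _ => rec122
  | _, _, 0 => rec230
  | _, _, 1 => rec231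
  | _, _, _ => rec232

/-- entry `s` of vector `j` of region `X` -/
def ent (X j s : ℕ) : ℕ :=
  Nat.mod (Nat.shiftRight (tab X) (Nat.mul 32 (Nat.add (Nat.mul 4 j) s))) 4294967296

/-- entry `q` of the combination `j` in the packed table `R` -/
def rc (R j q : ℕ) : ℕ :=
  Nat.mod (Nat.shiftRight R (Nat.mul 32 (Nat.add (Nat.mul 4 j) q))) 4294967296

/-- `64 * 8192` times the cost vector after two steps -/
def va (c c' c'' ea eb : ℕ) : ℕ :=
  524288 + g 1 c 1 c' * (16384 + g 1 c' 1 c'' * ea) +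
    15 * (g 1 c 0 c' * (16384 + g 0 c' 1 c'' * eb))

@[inherit_doc va]
def vb (c c' c'' ec : ℕ) : ℕ :=
  524288 + 16 * (g 1 c 2 c' * (16384 + g 2 c' 3 c'' * ec))

@[inherit_doc va]
def vc (c c' c'' ec ed : ℕ) : ℕ :=
  524288 + g 3 c 3 c' * (16384 + g 3 c' 3 c'' * ec) +
    15 * (g 3 c 4 c' * (16384 + g 4 c' 3 c'' * ed))

@[inherit_doc va]
def vd (c c' c'' ea : ℕ) : ℕ :=
  524288 + 16 * (g 3 c 2 c' * (16384 + g 2 c' 1 c'' * ea))

/-- index of the combination -/
def ix (R j q : ℕ) : ℕ := Nat.mod (rc R j q) 256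

/-- coefficient of the combination -/
def lam (R j q : ℕ) : ℕ := Nat.div (rc R j q) 256

/-- value of the combination -/
def cmb (R X j s : ℕ) : ℕ :=
  lam R j 0 * ent X (ix R j 0) s + lam R j 1 * ent X (ix R j 1) s +
    lam R j 2 * ent X (ix R j 2) s + lam R j 3 * ent X (ix R j 3) s

/-- one check -/
def chk1 (c c' c'' R j : ℕ) : Bool :=
  Nat.beq (lam R j 0 + lam R j 1 + lam R j 2 + lam R j 3) 65536 &&
  (Nat.blt (ix R j 0) (num (reg c)) && Nat.blt (ix R j 1) (num (reg c)) &&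
    Nat.blt (ix R j 2) (num (reg c)) && Nat.blt (ix R j 3) (num (reg c))) &&
  (Nat.ble (65536 * va c c' c'' (ent (reg c'') j 0) (ent (reg c'') j 1)) (64 * cmb R (reg c) j 0) &&
    Nat.ble (65536 * vb c c' c'' (ent (reg c'') j 2)) (64 * cmb R (reg c) j 1) &&
    Nat.ble (65536 * vc c c' c'' (ent (reg c'') j 2) (ent (reg c'') j 3))
      (64 * cmb R (reg c) j 2) &&
    Nat.ble (65536 * vd c c' c'' (ent (reg c'') j 0)) (64 * cmb R (reg c) j 3))

/-- all checks with indices below `n` -/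
def chkAll (c c' c'' R : ℕ) : ℕ → Bool
  | 0 => true
  | n + 1 => chk1 c c' c'' R n && chkAll c c' c'' R n

/-- all checks for the cells `c, c', c''` -/
def chk (c c' c'' : ℕ) : Bool := chkAll c c' c'' (rec' (reg c) c' (reg c'')) (num (reg c''))

/-- initial check -/
def ini1 (c c' j : ℕ) : Bool :=
  Nat.ble (32768 + g 2 c 1 c' * ent (reg c') j 0 + g 2 c 3 c' * ent (reg c') j 2) 240234

/-- all initial checks with indices below `n` -/
def iniAll (c c' : ℕ) : ℕ → Bool
  | 0 => true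
  | n + 1 => ini1 c c' n && iniAll c c' n

/-- representative of a cell -/
def rep : ℕ → ℕ
  | 0 => 0
  | 1 => 1
  | 2 => 1
  | _ => 3

/-- a middle cell that is at least as good for the hider -/
def good : ℕ → ℕ → ℕ
  | 0, _ => 0
  | 1, 0 => 1
  | 1, 1 => 1
  | 1, _ => 2
  | 2, 0 => 1
  | 2, 1 => 1
  | 2, _ => 2
  | _, _ => 3

lemma chk_all : ∀ c < 4, ∀ c' < 4, ∀ c'' < 4, chk (rep c) (good c c') (rep c'') = true := by
  decide +kernel

lemma ini_all : ∀ c < 4, ∀ c' < 4, iniAll c c' (num (reg c')) = true := by decide +kernel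

lemma reg_rep (c : ℕ) : reg (rep c) = reg c := by
  rcases c with _ | _ | _ | _ | c <;> rfl

lemma chkAll_of {c c' c'' R n : ℕ} (h : chkAll c c' c'' R n = true) :
    ∀ j < n, chk1 c c' c'' R j = true := by
  induction n with
  | zero => intro j hj; omega
  | succ n ih =>
    unfold chkAll at h
    rw [Bool.and_eq_true] at h
    intro j hj
    rcases Nat.lt_succ_iff_lt_or_eq.1 hj with h1 | h1
    · exact ih h.2 j h1
    · rw [h1]; exact h.1

lemma iniAll_of {c c' n : ℕ} (h : iniAll c c' n = true) : ∀ j < n, ini1 c c' j = true := by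
  induction n with
  | zero => intro j hj; omega
  | succ n ih =>
    unfold iniAll at h
    rw [Bool.and_eq_true] at h
    intro j hj
    rcases Nat.lt_succ_iff_lt_or_eq.1 hj with h1 | h1
    · exact ih h.2 j h1
    · rw [h1]; exact h.1

lemma initial {c c' : ℕ} (hc : c < 4) (hc' : c' < 4) {j : ℕ} (hj : j < num (reg c')) :
    32768 + g 2 c 1 c' * ent (reg c') j 0 + g 2 c 3 c' * ent (reg c') j 2 ≤ 240234 := by
  have h := iniAll_of (ini_all c hc c' hc') j hj
  unfold ini1 at h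
  exact Nat.le_of_ble_eq_true h

lemma branch_le {p q r s e : ℕ} (h1 : p ≤ r) (h2 : p * q ≤ r * s) :
    p * (16384 + q * e) ≤ r * (16384 + s * e) := by
  have h3 : p * q * e ≤ r * s * e := Nat.mul_le_mul_right e h2
  nlinarith

/-- a check that a middle cell is dominated -/
def dmb (p p' p'' c c' c'' : ℕ) : Bool :=
  Nat.ble (g p c p' c') (g p (rep c) p' (good c c')) &&
  Nat.ble (g p c p' c' * g p' c' p'' c'')
    (g p (rep c) p' (good c c') * g p' (good c c') p'' (rep c''))

lemma dmb_iff {p p' p'' c c' c'' : ℕ} (h : dmb p p' p'' c c' c'' = true) :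
    g p c p' c' ≤ g p (rep c) p' (good c c') ∧
      g p c p' c' * g p' c' p'' c'' ≤
        g p (rep c) p' (good c c') * g p' (good c c') p'' (rep c'') := by
  unfold dmb at h
  rw [Bool.and_eq_true] at h
  exact ⟨Nat.le_of_ble_eq_true h.1, Nat.le_of_ble_eq_true h.2⟩

lemma dominated1 : ∀ c < 4, ∀ c' < 4, ∀ c'' < 4, dmb 1 1 1 c c' c'' = true := by decide +kernel
lemma dominated2 : ∀ c < 4, ∀ c' < 4, ∀ c'' < 4, dmb 1 0 1 c c' c'' = true := by decide +kernel
lemma dominated3 : ∀ c < 4, ∀ c' < 4, ∀ c'' < 4, dmb 1 2 3 c c' c'' = true := by decide +kernel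
lemma dominated4 : ∀ c < 4, ∀ c' < 4, ∀ c'' < 4, dmb 3 3 3 c c' c'' = true := by decide +kernel
lemma dominated5 : ∀ c < 4, ∀ c' < 4, ∀ c'' < 4, dmb 3 4 3 c c' c'' = true := by decide +kernel
lemma dominated6 : ∀ c < 4, ∀ c' < 4, ∀ c'' < 4, dmb 3 2 1 c c' c'' = true := by decide +kernel

/-- The certificate: after two steps, each vector of the table is dominated by a combination of
four vectors of the table. -/
lemma sound {c c' c'' : ℕ} (hc : c < 4) (hc' : c' < 4) (hc'' : c'' < 4) {j : ℕ}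
    (hj : j < num (reg c'')) :
    ∃ (l i : Fin 4 → ℕ), (l 0 + l 1 + l 2 + l 3 = 65536) ∧ (∀ q, i q < num (reg c)) ∧
      65536 * va c c' c'' (ent (reg c'') j 0) (ent (reg c'') j 1) ≤
        64 * (l 0 * ent (reg c) (i 0) 0 + l 1 * ent (reg c) (i 1) 0 +
          l 2 * ent (reg c) (i 2) 0 + l 3 * ent (reg c) (i 3) 0) ∧
      65536 * vb c c' c'' (ent (reg c'') j 2) ≤
        64 * (l 0 * ent (reg c) (i 0) 1 + l 1 * ent (reg c) (i 1) 1 +
          l 2 * ent (reg c) (i 2) 1 + l 3 * ent (reg c) (i 3) 1) ∧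
      65536 * vc c c' c'' (ent (reg c'') j 2) (ent (reg c'') j 3) ≤
        64 * (l 0 * ent (reg c) (i 0) 2 + l 1 * ent (reg c) (i 1) 2 +
          l 2 * ent (reg c) (i 2) 2 + l 3 * ent (reg c) (i 3) 2) ∧
      65536 * vd c c' c'' (ent (reg c'') j 0) ≤
        64 * (l 0 * ent (reg c) (i 0) 3 + l 1 * ent (reg c) (i 1) 3 +
          l 2 * ent (reg c) (i 2) 3 + l 3 * ent (reg c) (i 3) 3) := by
  have h := chk_all c hc c' hc' c'' hc''
  unfold chk at h
  rw [reg_rep, reg_rep] at h
  have h1 := chkAll_of h j hj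
  unfold chk1 at h1
  simp only [Bool.and_eq_true, reg_rep] at h1
  obtain ⟨⟨hl, ⟨⟨hi0, hi1⟩, hi2⟩, hi3⟩, ⟨⟨ha, hb⟩, hcc⟩, hd⟩ := h1
  set R := rec' (reg c) (good c c') (reg c'')
  have d1 := dmb_iff (dominated1 c hc c' hc' c'' hc'')
  have d2 := dmb_iff (dominated2 c hc c' hc' c'' hc'')
  have d3 := dmb_iff (dominated3 c hc c' hc' c'' hc'')
  have d4 := dmb_iff (dominated4 c hc c' hc' c'' hc'')
  have d5 := dmb_iff (dominated5 c hc c' hc' c'' hc'')
  have d6 := dmb_iff (dominated6 c hc c' hc' c'' hc'')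
  refine ⟨![lam R j 0, lam R j 1, lam R j 2, lam R j 3], ![ix R j 0, ix R j 1, ix R j 2, ix R j 3],
    ?_, ?_, ?_, ?_, ?_, ?_⟩
  · simpa using Nat.eq_of_beq_eq_true hl
  · intro q
    fin_cases q
    · exact Nat.le_of_ble_eq_true hi0
    · exact Nat.le_of_ble_eq_true hi1
    · exact Nat.le_of_ble_eq_true hi2
    · exact Nat.le_of_ble_eq_true hi3
  · refine le_trans ?_ (Nat.le_of_ble_eq_true ha)
    apply Nat.mul_le_mul_left
    unfold va
    have e1 := branch_le (e := ent (reg c'') j 0) d1.1 d1.2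
    have e2 := branch_le (e := ent (reg c'') j 1) d2.1 d2.2
    omega
  · refine le_trans ?_ (Nat.le_of_ble_eq_true hb)
    apply Nat.mul_le_mul_left
    unfold vb
    have e1 := branch_le (e := ent (reg c'') j 2) d3.1 d3.2
    omega
  · refine le_trans ?_ (Nat.le_of_ble_eq_true hcc)
    apply Nat.mul_le_mul_left
    unfold vc
    have e1 := branch_le (e := ent (reg c'') j 2) d4.1 d4.2
    have e2 := branch_le (e := ent (reg c'') j 3) d5.1 d5.2
    omega
  · refine le_trans ?_ (Nat.le_of_ble_eq_true hd)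
    apply Nat.mul_le_mul_left
    unfold vd
    have e1 := branch_le (e := ent (reg c'') j 0) d6.1 d6.2
    omega

end Pool.Agent.MP_95edb1_lc.Cert
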