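import Pool.Agent.Lib.MP_95edb1_lc.Metric

set_option autoImplicit false

/-!
# The chain of four circles

Four circles in a row, consecutive ones joined by a bridge of length `2 / 10000`.  The chain
coordinate runs from `0` to `4`; the midpoints of the bridges have coordinates `1`, `2`, `3`.
-/

open MeasureTheory Filter Topology
open scoped ENNReal NNReal

namespace Pool.Agent.MP_95edb1_lc

/-- coordinates of the nodes -/
noncomputable def kap : Fin 8 → ℝ :=
  ![0, 1 - 1 / 10000, 1 + 1 / 10000, 2 - 1 / 10000, 2 + 1 / 10000, 3 - 1 / 10000,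
    3 + 1 / 10000, 4]

/-- first ends of the arcs -/
def csrc : Fin 11 → Fin 8 := ![0, 0, 1, 2, 2, 3, 4, 4, 5, 6, 6]

/-- second ends of the arcs -/
def ctgt : Fin 11 → Fin 8 := ![1, 1, 2, 3, 3, 4, 5, 5, 6, 7, 7]

/-- lengths of the arcs -/
noncomputable def clen : Fin 11 → ℝ :=
  ![1 - 1 / 10000, 1 - 1 / 10000, 2 / 10000, 1 - 2 / 10000, 1 - 2 / 10000, 2 / 10000,
    1 - 2 / 10000, 1 - 2 / 10000, 2 / 10000, 1 - 1 / 10000, 1 - 1 / 10000]

lemma kap_tgt (e : Fin 11) : kap (ctgt e) = kap (csrc e) + clen e := by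
  fin_cases e <;> simp [kap, ctgt, csrc, clen] <;> norm_num

/-- the chain of four circles -/
noncomputable abbrev chain : Network where
  V := Fin 8
  E := Fin 11
  finV := inferInstance
  finE := inferInstance
  neE := inferInstance
  src := csrc
  tgt := ctgt
  len := clen
  len_pos e := by fin_cases e <;> simp [clen] <;> norm_num
  connected a b := by
    set r : Fin 8 → Fin 8 → Prop := fun u v => ∃ e, (csrc e = u ∧ ctgt e = v) ∨
      (csrc e = v ∧ ctgt e = u) with hr
    have h1 : ∀ k : Fin 7, r k.castSucc k.succ := by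
      rw [hr]; decide
    have hsymm : ∀ u v, r u v → r v u := by
      rintro u v ⟨e, he⟩
      exact ⟨e, he.symm⟩
    have h2 : ∀ n : ℕ, ∀ h : n < 8, Relation.ReflTransGen r 0 ⟨n, h⟩ := by
      intro n
      induction n with
      | zero => intro h; exact Relation.ReflTransGen.refl
      | succ n ih =>
        intro h
        exact (ih (by omega)).tail (h1 ⟨n, by omega⟩)
    have h3 : ∀ n : ℕ, ∀ h : n < 8, Relation.ReflTransGen r ⟨n, h⟩ 0 := by
      intro n
      induction n with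
      | zero => intro h; exact Relation.ReflTransGen.refl
      | succ n ih =>
        intro h
        exact Relation.ReflTransGen.head (hsymm _ _ (h1 ⟨n, by omega⟩)) (ih (by omega))
    exact (h3 a.1 a.2).trans (h2 b.1 b.2)

/-- the chain coordinate -/
noncomputable def chx : chain.Pt → ℝ
  | Sum.inl v => kap v
  | Sum.inr ⟨e, x⟩ => kap (csrc e) + x.1

lemma chx_node (v : Fin 8) : chx (chain.node v) = kap v := rfl

lemma chx_inner (e : Fin 11) (x : Set.Ioo (0 : ℝ) (clen e)) :
    chx (chain.inner e x) = kap (csrc e) + x.1 := rfl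

lemma chx_arcPt (e : Fin 11) {x : ℝ} (hx : x ∈ Set.Icc (0 : ℝ) (clen e)) :
    chx (chain.arcPt e x) = kap (csrc e) + x := by
  rcases eq_or_lt_of_le hx.1 with h | h
  · have := Network.arcPt_zero (N := chain) e
    rw [← h, this, chx_node, add_zero]
  · rcases eq_or_lt_of_le hx.2 with h' | h'
    · have := Network.arcPt_len (N := chain) e
      have h2 : chain.arcPt e (clen e) = _ := this
      rw [h', h2, chx_node]
      exact kap_tgt e
    · have := Network.arcPt_of_mem (N := chain) e (x := x) ⟨h, h'⟩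
      rw [this, chx_inner]

lemma chx_lip (p q : chain.Pt) : ENNReal.ofReal |chx p - chx q| ≤ chain.pathDist p q := by
  have := Network.edist_map_le (N := chain) chx (by
    intro e x hx y hy
    rw [chx_arcPt e hx, chx_arcPt e hy, edist_dist, Real.dist_eq]
    apply ENNReal.ofReal_le_ofReal
    have : kap (csrc e) + x - (kap (csrc e) + y) = x - y := by ring
    rw [this]) p q
  rwa [edist_dist, Real.dist_eq] at this

/-- the arcs above the pieces of the coordinate interval -/
def ced : Fin 7 → Bool → Fin 11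
  | 0, true => 0
  | 0, false => 1
  | 1, _ => 2
  | 2, true => 3
  | 2, false => 4
  | 3, _ => 5
  | 4, true => 6
  | 4, false => 7
  | 5, _ => 8
  | 6, true => 9
  | 6, false => 10

lemma csrc_ced (k : Fin 7) (β : Bool) : csrc (ced k β) = k.castSucc := by
  revert k β; decide

lemma ctgt_ced (k : Fin 7) (β : Bool) : ctgt (ced k β) = k.succ := by
  revert k β; decide

lemma clen_ced (k : Fin 7) (β : Bool) : clen (ced k β) = kap k.succ - kap k.castSucc := by
  have := kap_tgt (ced k β)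
  rw [csrc_ced, ctgt_ced] at this
  linarith

lemma kap_lt (k : Fin 7) : kap k.castSucc < kap k.succ := by
  have := clen_ced k true
  have h := chain.len_pos (ced k true)
  have h2 : chain.len (ced k true) = clen (ced k true) := rfl
  rw [h2] at h
  linarith

/-- the point with coordinate `x` on side `β` -/
noncomputable def cpt (β : Bool) (x : ℝ) : chain.Pt :=
  if x ≤ kap 1 then chain.arcPt (ced 0 β) (x - kap 0)
  else if x ≤ kap 2 then chain.arcPt (ced 1 β) (x - kap 1)
  else if x ≤ kap 3 then chain.arcPt (ced 2 β) (x - kap 2)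
  else if x ≤ kap 4 then chain.arcPt (ced 3 β) (x - kap 3)
  else if x ≤ kap 5 then chain.arcPt (ced 4 β) (x - kap 4)
  else if x ≤ kap 6 then chain.arcPt (ced 5 β) (x - kap 5)
  else chain.arcPt (ced 6 β) (x - kap 6)

lemma kaps : kap 0 = 0 ∧ kap 1 = 1 - 1 / 10000 ∧ kap 2 = 1 + 1 / 10000 ∧ kap 3 = 2 - 1 / 10000 ∧
    kap 4 = 2 + 1 / 10000 ∧ kap 5 = 3 - 1 / 10000 ∧ kap 6 = 3 + 1 / 10000 ∧ kap 7 = 4 :=
  ⟨rfl, rfl, rfl, rfl, rfl, rfl, rfl, rfl⟩

/-- `cpt` on the interior of a piece and at its right end -/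
lemma cpt_piece' (k : Fin 7) (β : Bool) {x : ℝ} (h1 : kap k.castSucc < x) (h2 : x ≤ kap k.succ) :
    cpt β x = chain.arcPt (ced k β) (x - kap k.castSucc) := by
  obtain ⟨e0, e1, e2, e3, e4, e5, e6, e7⟩ := kaps
  unfold cpt
  fin_cases k
  · have g2 : x ≤ kap 1 := h2
    rw [if_pos g2]; rfl
  · have g1 : kap 1 < x := h1
    have g2 : x ≤ kap 2 := h2
    rw [if_neg (by linarith), if_pos g2]; rfl
  · have g1 : kap 2 < x := h1
    have g2 : x ≤ kap 3 := h2
    rw [if_neg (by linarith), if_neg (by linarith), if_pos g2]; rfl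
  · have g1 : kap 3 < x := h1
    have g2 : x ≤ kap 4 := h2
    rw [if_neg (by linarith), if_neg (by linarith), if_neg (by linarith), if_pos g2]; rfl
  · have g1 : kap 4 < x := h1
    have g2 : x ≤ kap 5 := h2
    rw [if_neg (by linarith), if_neg (by linarith), if_neg (by linarith), if_neg (by linarith),
      if_pos g2]; rfl
  · have g1 : kap 5 < x := h1
    have g2 : x ≤ kap 6 := h2
    rw [if_neg (by linarith), if_neg (by linarith), if_neg (by linarith), if_neg (by linarith),
      if_neg (by linarith), if_pos g2]; rfl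
  · have g1 : kap 6 < x := h1
    rw [if_neg (by linarith), if_neg (by linarith), if_neg (by linarith), if_neg (by linarith),
      if_neg (by linarith), if_neg (by linarith)]; rfl

lemma arcPt_left (k : Fin 7) (β : Bool) :
    chain.arcPt (ced k β) 0 = chain.node k.castSucc := by
  have := Network.arcPt_zero (N := chain) (ced k β)
  rw [this]
  exact congrArg chain.node (csrc_ced k β)

lemma arcPt_right (k : Fin 7) (β : Bool) :
    chain.arcPt (ced k β) (kap k.succ - kap k.castSucc) = chain.node k.succ := by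
  have := Network.arcPt_len (N := chain) (ced k β)
  rw [← clen_ced k β]
  refine this.trans ?_
  exact congrArg chain.node (ctgt_ced k β)

lemma cpt_zero (β : Bool) : cpt β 0 = chain.node 0 := by
  obtain ⟨e0, e1, -⟩ := kaps
  unfold cpt
  rw [if_pos (by rw [e1]; norm_num), e0, sub_zero]
  exact arcPt_left 0 β

lemma cpt_succ (k : Fin 7) (β : Bool) : cpt β (kap k.succ) = chain.node k.succ := by
  rw [cpt_piece' k β (kap_lt k) le_rfl]
  exact arcPt_right k β

lemma cpt_kap (v : Fin 8) (β : Bool) : cpt β (kap v) = chain.node v := by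
  rcases Fin.eq_zero_or_eq_succ v with h | ⟨k, h⟩
  · rw [h]
    exact cpt_zero β
  · rw [h]
    exact cpt_succ k β

lemma cpt_piece (k : Fin 7) (β : Bool) {x : ℝ} (hx : x ∈ Set.Icc (kap k.castSucc) (kap k.succ)) :
    cpt β x = chain.arcPt (ced k β) (x - kap k.castSucc) := by
  rcases eq_or_lt_of_le hx.1 with h | h
  · rw [← h, sub_self, cpt_kap, arcPt_left]
  · exact cpt_piece' k β h hx.2

lemma cpt_L1_piece (k : Fin 7) (β : Bool) : L1 (cpt β) (Set.Icc (kap k.castSucc) (kap k.succ)) := by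
  intro x hx y hy hxy
  rw [cpt_piece k β hx, cpt_piece k β hy]
  have hl : chain.len (ced k β) = kap k.succ - kap k.castSucc := clen_ced k β
  have h := Network.edist_arcPt_le (N := chain) (ced k β) (x := x - kap k.castSucc)
    (y := y - kap k.castSucc) ⟨by linarith [hx.1], by rw [hl]; linarith [hx.2]⟩
    ⟨by linarith [hy.1], by rw [hl]; linarith [hy.2]⟩
  refine h.trans (le_of_eq ?_)
  congr 1
  rw [abs_sub_comm, abs_of_nonneg] <;> linarith

lemma cpt_L1 (β : Bool) : L1 (cpt β) (Set.Icc 0 4) := by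
  have h0 := cpt_L1_piece 0 β
  have h1 := cpt_L1_piece 1 β
  have h2 := cpt_L1_piece 2 β
  have h3 := cpt_L1_piece 3 β
  have h4 := cpt_L1_piece 4 β
  have h5 := cpt_L1_piece 5 β
  have h6 := cpt_L1_piece 6 β
  exact (((((h0.union h1).union h2).union h3).union h4).union h5).union h6

/-- every coordinate lies in a piece -/
lemma exists_piece {x : ℝ} (hx : x ∈ Set.Icc (0 : ℝ) 4) :
    ∃ k : Fin 7, x ∈ Set.Icc (kap k.castSucc) (kap k.succ) := by
  obtain ⟨e0, e1, e2, e3, e4, e5, e6, e7⟩ := kaps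
  rcases le_or_gt x (kap 1) with h1 | h1
  · exact ⟨0, hx.1, h1⟩
  rcases le_or_gt x (kap 2) with h2 | h2
  · exact ⟨1, h1.le, h2⟩
  rcases le_or_gt x (kap 3) with h3 | h3
  · exact ⟨2, h2.le, h3⟩
  rcases le_or_gt x (kap 4) with h4 | h4
  · exact ⟨3, h3.le, h4⟩
  rcases le_or_gt x (kap 5) with h5 | h5
  · exact ⟨4, h4.le, h5⟩
  rcases le_or_gt x (kap 6) with h6 | h6
  · exact ⟨5, h5.le, h6⟩
  · exact ⟨6, h6.le, hx.2⟩

lemma chx_cpt (β : Bool) {x : ℝ} (hx : x ∈ Set.Icc (0 : ℝ) 4) : chx (cpt β x) = x := by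
  obtain ⟨k, hk⟩ := exists_piece hx
  rw [cpt_piece k β hk, chx_arcPt, csrc_ced]
  · ring
  · rw [clen_ced]
    exact ⟨by linarith [hk.1], by linarith [hk.2]⟩

lemma isNode_cpt {β : Bool} {x : ℝ} (hx : x ∈ Set.Icc (0 : ℝ) 4) (h : chain.IsNode (cpt β x)) :
    ∃ v : Fin 8, x = kap v := by
  obtain ⟨v, hv⟩ := h
  exact ⟨v, by rw [← chx_cpt β hx, hv, chx_node]⟩

lemma exists_ced (e : Fin 11) : ∃ k β, ced k β = e := by
  revert e; decide

/-- every point is on one of the two sides -/
lemma exists_cpt (q : chain.Pt) : ∃ β, cpt β (chx q) = q := by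
  rcases q with v | ⟨e, x⟩
  · exact ⟨true, cpt_kap v true⟩
  · obtain ⟨k, β, hk⟩ := exists_ced e
    refine ⟨β, ?_⟩
    have h1 : chx (Sum.inr ⟨e, x⟩) = kap (csrc e) + x.1 := rfl
    rw [h1]
    have h2 : clen (ced k β) = kap k.succ - kap k.castSucc := clen_ced k β
    have h3 : kap (csrc e) = kap k.castSucc := by rw [← hk, csrc_ced]
    have hx1 := x.2.1
    have hx2 : x.1 < clen e := x.2.2
    have hx3 : clen e = kap k.succ - kap k.castSucc := by rw [← hk, h2]
    rw [h3, cpt_piece k β ⟨by linarith, by linarith⟩, hk, add_sub_cancel_left]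
    have := Network.arcPt_of_mem (N := chain) e (x := x.1) x.2
    rw [this]
    rfl

lemma chx_mem (q : chain.Pt) : chx q ∈ Set.Icc (0 : ℝ) 4 := by
  obtain ⟨e0, e1, e2, e3, e4, e5, e6, e7⟩ := kaps
  have hk : ∀ v : Fin 8, kap v ∈ Set.Icc (0 : ℝ) 4 := by
    intro v
    fin_cases v
    · show kap 0 ∈ _; rw [e0]; constructor <;> norm_num
    · show kap 1 ∈ _; rw [e1]; constructor <;> norm_num
    · show kap 2 ∈ _; rw [e2]; constructor <;> norm_num
    · show kap 3 ∈ _; rw [e3]; constructor <;> norm_num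
    · show kap 4 ∈ _; rw [e4]; constructor <;> norm_num
    · show kap 5 ∈ _; rw [e5]; constructor <;> norm_num
    · show kap 6 ∈ _; rw [e6]; constructor <;> norm_num
    · show kap 7 ∈ _; rw [e7]; constructor <;> norm_num
  rcases q with v | ⟨e, x⟩
  · exact hk v
  · have h1 : chx (Sum.inr ⟨e, x⟩) = kap (csrc e) + x.1 := rfl
    rw [h1]
    have h2 := kap_tgt e
    have h3 := hk (csrc e)
    have h4 := hk (ctgt e)
    have hx1 := x.2.1
    have hx2 : x.1 < clen e := x.2.2
    exact ⟨by linarith [h3.1], by linarith [h4.2]⟩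

/-- at the ports the two sides agree -/
lemma cpt_port (m : ℕ) (hm : m ≤ 4) (β β' : Bool) : cpt β (m : ℝ) = cpt β' (m : ℝ) := by
  obtain ⟨e0, e1, e2, e3, e4, e5, e6, e7⟩ := kaps
  rcases hm.lt_or_eq with h | h
  · have hcases : m = 0 ∨ m = 1 ∨ m = 2 ∨ m = 3 := by omega
    rcases hcases with rfl | rfl | rfl | rfl
    · rw [Nat.cast_zero, cpt_zero, cpt_zero]
    · have hx : ((1 : ℕ) : ℝ) ∈ Set.Icc (kap (1 : Fin 7).castSucc) (kap (1 : Fin 7).succ) := by
        show ((1 : ℕ) : ℝ) ∈ Set.Icc (kap 1) (kap 2)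
        rw [e1, e2]; constructor <;> norm_num
      rw [cpt_piece 1 β hx, cpt_piece 1 β' hx]; rfl
    · have hx : ((2 : ℕ) : ℝ) ∈ Set.Icc (kap (3 : Fin 7).castSucc) (kap (3 : Fin 7).succ) := by
        show ((2 : ℕ) : ℝ) ∈ Set.Icc (kap 3) (kap 4)
        rw [e3, e4]; constructor <;> norm_num
      rw [cpt_piece 3 β hx, cpt_piece 3 β' hx]; rfl
    · have hx : ((3 : ℕ) : ℝ) ∈ Set.Icc (kap (5 : Fin 7).castSucc) (kap (5 : Fin 7).succ) := by
        show ((3 : ℕ) : ℝ) ∈ Set.Icc (kap 5) (kap 6)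
        rw [e5, e6]; constructor <;> norm_num
      rw [cpt_piece 5 β hx, cpt_piece 5 β' hx]; rfl
  · have h7 : ((m : ℕ) : ℝ) = kap 7 := by rw [h, e7]; norm_num
    rw [h7, cpt_kap, cpt_kap]

/-- the starting point: the midpoint of the middle bridge -/
noncomputable def cmid : chain.Pt := chain.arcPt 5 (1 / 10000)

lemma cpt_two (β : Bool) : cpt β 2 = cmid := by
  obtain ⟨e0, e1, e2, e3, e4, e5, e6, e7⟩ := kaps
  have hx : (2 : ℝ) ∈ Set.Icc (kap (3 : Fin 7).castSucc) (kap (3 : Fin 7).succ) := by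
    show (2 : ℝ) ∈ Set.Icc (kap 3) (kap 4)
    rw [e3, e4]; constructor <;> norm_num
  rw [cpt_piece 3 β hx]
  show chain.arcPt 5 (2 - kap 3) = _
  rw [e3]
  unfold cmid
  congr 1
  norm_num

lemma kap_ne_port (v : Fin 8) (m : ℕ) (hm : m = 1 ∨ m = 3) : kap v ≠ (m : ℝ) := by
  obtain ⟨e0, e1, e2, e3, e4, e5, e6, e7⟩ := kaps
  rcases hm with rfl | rfl
  · fin_cases v
    · show kap 0 ≠ _; rw [e0]; norm_num
    · show kap 1 ≠ _; rw [e1]; norm_num
    · show kap 2 ≠ _; rw [e2]; norm_num
    · show kap 3 ≠ _; rw [e3]; norm_num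
    · show kap 4 ≠ _; rw [e4]; norm_num
    · show kap 5 ≠ _; rw [e5]; norm_num
    · show kap 6 ≠ _; rw [e6]; norm_num
    · show kap 7 ≠ _; rw [e7]; norm_num
  · fin_cases v
    · show kap 0 ≠ _; rw [e0]; norm_num
    · show kap 1 ≠ _; rw [e1]; norm_num
    · show kap 2 ≠ _; rw [e2]; norm_num
    · show kap 3 ≠ _; rw [e3]; norm_num
    · show kap 4 ≠ _; rw [e4]; norm_num
    · show kap 5 ≠ _; rw [e5]; norm_num
    · show kap 6 ≠ _; rw [e6]; norm_num
    · show kap 7 ≠ _; rw [e7]; norm_num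

lemma totalLength_chain : chain.totalLength = 8 - 6 / 10000 := by
  show ∑ e : Fin 11, clen e = _
  simp [Fin.sum_univ_succ, clen]
  norm_num

end Pool.Agent.MP_95edb1_lc
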