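import Mathlib

set_option autoImplicit false

/-!
# Search games with a mobile hider on networks: definitions

Networks as metric graphs, the two players' strategies, capture time, lower and upper value,
and the spectacles networks.
-/

open MeasureTheory Filter Topology
open scoped ENNReal NNReal

namespace Pool.Agent.MP_95edb1_lc

/-- A network: a finite connected graph, loops and multiple edges allowed, with at least one arc,
whose arcs have positive lengths. -/
structure Network where
  /-- the nodes -/
  V : Type
  /-- the arcs -/
  E : Type
  finV : Finite V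
  finE : Fintype E
  neE : Nonempty E
  /-- first end of an arc -/
  src : E → V
  /-- second end of an arc -/
  tgt : E → V
  /-- length of an arc -/
  len : E → ℝ
  len_pos : ∀ e, 0 < len e
  connected : ∀ a b : V,
    Relation.ReflTransGen (fun u v => ∃ e, (src e = u ∧ tgt e = v) ∨ (src e = v ∧ tgt e = u)) a b

namespace Network

variable (N : Network)

/-- The points of a network: its nodes, and the interior points of its arcs, the latter given by
an arc `e` and a parameter `0 < x < len e`. -/
def Pt : Type := N.V ⊕ (Σ e : N.E, Set.Ioo (0 : ℝ) (N.len e))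

/-- The node `v`, as a point of the network. -/
def node (v : N.V) : N.Pt := Sum.inl v

/-- The interior point of the arc `e` with parameter `x`. -/
def inner (e : N.E) (x : Set.Ioo (0 : ℝ) (N.len e)) : N.Pt := Sum.inr ⟨e, x⟩

/-- `p` is a node. -/
def IsNode (p : N.Pt) : Prop := ∃ v : N.V, p = N.node v

/-- The point with parameter `x` on the closed arc `e`: the first end for `x ≤ 0`, the second end
for `x ≥ len e`, and an interior point of the arc otherwise. -/
noncomputable def arcPt (e : N.E) (x : ℝ) : N.Pt :=
  if h : x ∈ Set.Ioo (0 : ℝ) (N.len e) then N.inner e ⟨x, h⟩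
  else if x ≤ 0 then N.node (N.src e) else N.node (N.tgt e)

/-- `N.Route p q c`: there is a path of length `c` from `p` to `q` that is made of finitely many
pieces, each running inside one closed arc. -/
inductive Route : N.Pt → N.Pt → ℝ → Prop
  | nil (p : N.Pt) : Route p p 0
  | cons (e : N.E) (x y : ℝ) (q : N.Pt) (c : ℝ) (hx : x ∈ Set.Icc (0 : ℝ) (N.len e))
      (hy : y ∈ Set.Icc (0 : ℝ) (N.len e)) (h : Route (N.arcPt e y) q c) :
      Route (N.arcPt e x) q (|x - y| + c)

/-- The shortest-path distance. -/
noncomputable def pathDist (p q : N.Pt) : ℝ≥0∞ :=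
  ⨅ (c : ℝ) (_ : N.Route p q c), ENNReal.ofReal c

/-- The total length `μ(Q)` of the arcs. -/
noncomputable def totalLength : ℝ :=
  letI := N.finE
  ∑ e, N.len e

/-- A pure strategy of the searcher, with the non-loitering assumption: a path that starts at `O`,
has speed at most `1`, and is at a node only for a set of times of measure zero. -/
structure Searcher (O : N.Pt) where
  /-- the position at each time -/
  pos : ℝ≥0 → N.Pt
  start : pos 0 = O
  speed : ∀ s t : ℝ≥0, N.pathDist (pos s) (pos t) ≤ ENNReal.ofReal |(s : ℝ) - t|
  nonloiter : volume {t : ℝ | ∃ h : 0 ≤ t, N.IsNode (pos ⟨t, h⟩)} = 0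

/-- A pure strategy of the hider: a path with arbitrary start and speed at most `w`. -/
structure Hider (w : ℝ) where
  /-- the position at each time -/
  pos : ℝ≥0 → N.Pt
  speed : ∀ s t : ℝ≥0, N.pathDist (pos s) (pos t) ≤ ENNReal.ofReal (w * |(s : ℝ) - t|)

variable {N}

/-- The capture time `inf {t ≥ 0 : S t = H t}`, which is `∞` if the players never meet. -/
noncomputable def captureTime {O : N.Pt} {w : ℝ} (S : N.Searcher O) (H : N.Hider w) : ℝ≥0∞ :=
  ⨅ (t : ℝ≥0) (_ : S.pos t = H.pos t), (t : ℝ≥0∞)

variable (N)

/-- A mixed strategy of the searcher: a random path, that is, a family of pure strategies indexed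
by a probability space such that the position at each time is a Borel measurable function. -/
structure MixedSearcher (O : N.Pt) where
  /-- the sample space -/
  Ω : Type
  mΩ : MeasurableSpace Ω
  /-- the probability measure -/
  P : Measure Ω
  prob : IsProbabilityMeasure P
  /-- the pure strategy played -/
  strat : Ω → N.Searcher O
  meas : ∀ (t : ℝ≥0) (p : N.Pt) (r : ℝ≥0∞),
    MeasurableSet {ω | N.pathDist p ((strat ω).pos t) < r}

/-- A mixed strategy of the hider: a random path, that is, a family of pure strategies indexed
by a probability space such that the position at each time is a Borel measurable function. -/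
structure MixedHider (w : ℝ) where
  /-- the sample space -/
  Ω : Type
  mΩ : MeasurableSpace Ω
  /-- the probability measure -/
  P : Measure Ω
  prob : IsProbabilityMeasure P
  /-- the pure strategy played -/
  strat : Ω → N.Hider w
  meas : ∀ (t : ℝ≥0) (p : N.Pt) (r : ℝ≥0∞),
    MeasurableSet {ω | N.pathDist p ((strat ω).pos t) < r}

/-- The upper value: what the searcher can guarantee with mixed strategies. -/
noncomputable def upperValue (O : N.Pt) (w : ℝ) : ℝ≥0∞ :=
  ⨅ σ : N.MixedSearcher O, ⨆ H : N.Hider w,
    @lintegral σ.Ω σ.mΩ σ.P fun ω => captureTime (σ.strat ω) H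

/-- The lower value: what the hider can guarantee with mixed strategies. -/
noncomputable def lowerValue (O : N.Pt) (w : ℝ) : ℝ≥0∞ :=
  ⨆ τ : N.MixedHider w, ⨅ S : N.Searcher O,
    @lintegral τ.Ω τ.mΩ τ.P fun ω => captureTime S (τ.strat ω)

end Network

/-- The spectacles network `S_δ`: the nodes are `false` and `true`; for each node `b` there is a
loop `some b` of length `1` at `b`, and the arc `none`, of length `δ`, joins the two nodes. -/
noncomputable abbrev spectacles (δ : ℝ) (hδ : 0 < δ) : Network where
  V := Bool
  E := Option Bool
  finV := inferInstance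
  finE := inferInstance
  neE := inferInstance
  src e := e.getD false
  tgt e := e.getD true
  len e := e.elim δ fun _ => 1
  len_pos e := by cases e <;> simp [hδ]
  connected a b := by
    have h1 : ∀ u v : Bool, ∃ e : Option Bool,
        (e.getD false = u ∧ e.getD true = v) ∨ (e.getD false = v ∧ e.getD true = u) := by
      decide
    exact Relation.ReflTransGen.single (h1 a b)

/-- The searcher's starting point in `S_δ`: the midpoint of the segment. -/
noncomputable def spectaclesMid (δ : ℝ) (hδ : 0 < δ) : (spectacles δ hδ).Pt :=
  (spectacles δ hδ).arcPt none (δ / 2)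

/-- `σ`, computed with the lower values of the spectacles networks: the lower limit, for
`δ → 0⁺`, of `v(S_δ) / (2 + δ)`. -/
noncomputable def sigmaLower (w : ℝ) : ℝ≥0∞ :=
  liminf (fun δ : Set.Ioi (0 : ℝ) =>
    (spectacles δ.1 δ.2).lowerValue (spectaclesMid δ.1 δ.2) w / ENNReal.ofReal (2 + δ.1))
    (comap Subtype.val (𝓝 (0 : ℝ)))

end Pool.Agent.MP_95edb1_lc
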