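import Pool.Agent.Lib.MP_95edb1_lc.Metric

set_option autoImplicit false

open MeasureTheory Filter Topology
open scoped ENNReal NNReal

namespace Pool.Agent.MP_95edb1_lc

/-- distance to the nearest integer -/
noncomputable def nd (x : ℝ) : ℝ := |x - round x|

lemma nd_nonneg (x : ℝ) : 0 ≤ nd x := abs_nonneg _

lemma nd_le (x : ℝ) (z : ℤ) : nd x ≤ |x - z| := round_le x z

lemma nd_lip (x y : ℝ) : nd x - nd y ≤ |x - y| := by
  have h1 := nd_le x (round y)
  have h2 : |x - round y| ≤ |x - y| + |y - round y| := by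
    have := abs_add_le (x - y) (y - round y)
    simpa using this
  unfold nd at *
  linarith

lemma nd_abs (x y : ℝ) : |nd x - nd y| ≤ |x - y| := by
  rw [abs_le]
  have h1 := nd_lip x y
  have h2 := nd_lip y x
  rw [abs_sub_comm] at h2
  constructor <;> linarith

lemma nd_add_int (x : ℝ) (z : ℤ) : nd (x + z) = nd x := by
  unfold nd
  rw [round_add_intCast]
  congr 1
  push_cast
  ring

lemma nd_sub_int (x : ℝ) (z : ℤ) : nd (x - z) = nd x := by
  have := nd_add_int (x - z) z
  rw [← this]; congr 1; ring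

lemma nd_fract (x : ℝ) : nd (Int.fract x) = nd x := by
  have := nd_sub_int x ⌊x⌋
  exact this

lemma nd_zero : nd 0 = 0 := by simp [nd]

lemma nd_one : nd 1 = 0 := by
  have := nd_add_int 0 1
  simpa [nd_zero] using this

/-- on `[0,1]` the distance to the nearest integer is `min x (1 - x)` -/
lemma nd_of_mem {x : ℝ} (h0 : 0 ≤ x) (h1 : x ≤ 1) : nd x = min x (1 - x) := by
  apply le_antisymm
  · apply le_min
    · have := nd_le x 0
      simpa [abs_of_nonneg h0] using this
    · have := nd_le x 1
      rw [abs_sub_comm] at this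
      simpa [abs_of_nonneg (sub_nonneg.2 h1)] using this
  · unfold nd
    rcases le_or_gt (round x) 0 with h | h
    · have h2 : ((round x : ℤ) : ℝ) ≤ 0 := by exact_mod_cast h
      rw [abs_of_nonneg (by linarith)]
      exact (min_le_left _ _).trans (by linarith)
    · have h2 : (1 : ℝ) ≤ ((round x : ℤ) : ℝ) := by exact_mod_cast h
      rw [abs_sub_comm, abs_of_nonneg (by linarith)]
      exact (min_le_right _ _).trans (by linarith)

lemma nd_of_le_half {x : ℝ} (h0 : 0 ≤ x) (h1 : x ≤ 1 / 2) : nd x = x := by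
  rw [nd_of_mem h0 (by linarith)]
  exact min_eq_left (by linarith)

lemma nd_neg (x : ℝ) : nd (-x) = nd x := by
  apply le_antisymm
  · have := nd_le (-x) (-round x)
    refine this.trans (le_of_eq ?_)
    unfold nd
    rw [← abs_neg]
    congr 1
    push_cast
    ring
  · have := nd_le (x) (-round (-x))
    refine this.trans (le_of_eq ?_)
    unfold nd
    rw [← abs_neg]
    congr 1
    push_cast
    ring

section Spectacles

variable {δ : ℝ} {hδ : 0 < δ}

/-- The closed path around the loop at the node `b`, parametrised by arc length. -/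
noncomputable def circ (δ : ℝ) (hδ : 0 < δ) (b : Bool) (x : ℝ) : (spectacles δ hδ).Pt :=
  (spectacles δ hδ).arcPt (some b) (Int.fract x)

lemma circ_add_int (b : Bool) (x : ℝ) (z : ℤ) : circ δ hδ b (x + z) = circ δ hδ b x := by
  unfold circ
  rw [Int.fract_add_intCast]

lemma circ_sub_one (b : Bool) (x : ℝ) : circ δ hδ b (x - 1) = circ δ hδ b x := by
  have := circ_add_int (δ := δ) (hδ := hδ) b x (-1)
  rw [← this]
  congr 1
  push_cast
  ring

lemma circ_eq_arcPt (b : Bool) (n : ℤ) {x : ℝ} (hx : x ∈ Set.Icc (n : ℝ) (n + 1)) :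
    circ δ hδ b x = (spectacles δ hδ).arcPt (some b) (x - n) := by
  unfold circ
  rcases lt_or_eq_of_le hx.2 with h | h
  · have : ⌊x⌋ = n := Int.floor_eq_iff.2 ⟨hx.1, h⟩
    rw [Int.fract, this]
  · have h1 : Int.fract x = 0 := by
      rw [h]
      have := Int.fract_intCast (R := ℝ) (n + 1)
      push_cast at this
      exact this
    rw [h1, h]
    have h2 := Network.arcPt_zero (N := spectacles δ hδ) (some b)
    have h3 := Network.arcPt_len (N := spectacles δ hδ) (some b)
    have h4 : (spectacles δ hδ).len (some b) = 1 := rfl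
    rw [h4] at h3
    have h5 : (n : ℝ) + 1 - n = 1 := by ring
    rw [h5, h2, h3]
    rfl

lemma circ_L1 (b : Bool) : L1 (circ δ hδ b) Set.univ := by
  apply L1.grid
  intro n x hx y hy hxy
  rw [circ_eq_arcPt b n hx, circ_eq_arcPt b n hy]
  have h4 : (spectacles δ hδ).len (some b) = 1 := rfl
  have h := Network.edist_arcPt_le (N := spectacles δ hδ) (some b) (x := x - n) (y := y - n)
    ⟨by linarith [hx.1], by rw [h4]; linarith [hx.2]⟩
    ⟨by linarith [hy.1], by rw [h4]; linarith [hy.2]⟩
  refine h.trans (le_of_eq ?_)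
  congr 1
  rw [abs_sub_comm, abs_of_nonneg] <;> linarith

/-- A real function on the spectacles given by its values on the arcs. -/
noncomputable def spf (δ : ℝ) (hδ : 0 < δ) (v : Bool → ℝ) (f : Option Bool → ℝ → ℝ) :
    (spectacles δ hδ).Pt → ℝ
  | Sum.inl b => v b
  | Sum.inr ⟨e, x⟩ => f e x.1

lemma spf_arcPt (v : Bool → ℝ) (f : Option Bool → ℝ → ℝ) (e : Option Bool)
    (h0 : f e 0 = v (e.getD false)) (h1 : f e (e.elim δ fun _ => 1) = v (e.getD true))
    {x : ℝ} (hx : x ∈ Set.Icc (0 : ℝ) (e.elim δ fun _ => 1)) :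
    spf δ hδ v f ((spectacles δ hδ).arcPt e x) = f e x := by
  rcases eq_or_lt_of_le hx.1 with h | h
  · have := Network.arcPt_zero (N := spectacles δ hδ) e
    rw [← h, this, h0]; rfl
  · rcases eq_or_lt_of_le hx.2 with h' | h'
    · have := Network.arcPt_len (N := spectacles δ hδ) e
      have h2 : (spectacles δ hδ).arcPt e (e.elim δ fun _ => 1) = _ := this
      rw [h', h2, h1]; rfl
    · have := Network.arcPt_of_mem (N := spectacles δ hδ) e (x := x) ⟨h, h'⟩
      rw [this]; rfl

lemma spf_lip (v : Bool → ℝ) (f : Option Bool → ℝ → ℝ)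
    (h0 : ∀ e : Option Bool, f e 0 = v (e.getD false))
    (h1 : ∀ e : Option Bool, f e (e.elim δ fun _ => 1) = v (e.getD true))
    (hf : ∀ e x y, |f e x - f e y| ≤ |x - y|) (p q : (spectacles δ hδ).Pt) :
    ENNReal.ofReal |spf δ hδ v f p - spf δ hδ v f q| ≤ (spectacles δ hδ).pathDist p q := by
  have := Network.edist_map_le (N := spectacles δ hδ) (spf δ hδ v f) (by
    intro e x hx y hy
    rw [spf_arcPt v f e (h0 e) (h1 e) hx, spf_arcPt v f e (h0 e) (h1 e) hy, edist_dist,
      Real.dist_eq]
    exact ENNReal.ofReal_le_ofReal (hf e x y)) p q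
  rwa [edist_dist, Real.dist_eq] at this

lemma nd_le_pathDist (b : Bool) (x y : ℝ) :
    ENNReal.ofReal (nd (x - y)) ≤
      (spectacles δ hδ).pathDist (circ δ hδ b x) (circ δ hδ b y) := by
  set f : Option Bool → ℝ → ℝ := fun e s => if e = some b then nd (s - y) else nd (0 - y) with hf
  have hp : nd (1 - y) = nd (0 - y) := by
    have := nd_add_int (0 - y) 1
    rw [← this]; congr 1; push_cast; ring
  have h0 : ∀ e : Option Bool, f e 0 = (fun _ => nd (0 - y)) (e.getD false) := by
    intro e; simp only [hf]; split_ifs <;> rfl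
  have h1 : ∀ e : Option Bool, f e (e.elim δ fun _ => 1) = (fun _ => nd (0 - y)) (e.getD true) := by
    intro e; simp only [hf]; split_ifs with h
    · subst h; exact hp
    · rfl
  have h := spf_lip (δ := δ) (hδ := hδ) (fun _ => nd (0 - y)) f h0 h1 (by
      intro e s t; simp only [hf]; split_ifs
      · have := nd_abs (s - y) (t - y)
        refine this.trans (le_of_eq ?_)
        congr 1; ring
      · simp) (circ δ hδ b x) (circ δ hδ b y)
  have e1 : ∀ z, spf δ hδ (fun _ => nd (0 - y)) f (circ δ hδ b z) = nd (z - y) := by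
    intro z
    unfold circ
    rw [spf_arcPt (fun _ => nd (0 - y)) f (some b) (h0 _) (h1 _)
      ⟨Int.fract_nonneg z, (Int.fract_lt_one z).le⟩]
    simp only [hf, if_true]
    have := nd_sub_int (z - y) ⌊z⌋
    rw [← this]
    congr 1
    unfold Int.fract
    ring
  rw [e1, e1, sub_self y, nd_zero, sub_zero, abs_of_nonneg (nd_nonneg _)] at h
  exact h

/-- the coordinate along the axis of the spectacles -/
noncomputable def axf (δ : ℝ) (e : Option Bool) (s : ℝ) : ℝ :=
  match e with
  | none => s
  | some false => - nd s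
  | some true => δ + nd s

lemma axf_h0 (e : Option Bool) : axf δ e 0 = (fun b : Bool => if b then δ else 0) (e.getD false) := by
  rcases e with _ | _ | _ <;> simp [axf, nd_zero]

lemma axf_h1 (e : Option Bool) :
    axf δ e (e.elim δ fun _ => 1) = (fun b : Bool => if b then δ else 0) (e.getD true) := by
  rcases e with _ | _ | _ <;> simp [axf, nd_one]

lemma axf_lip (e : Option Bool) (x y : ℝ) : |axf δ e x - axf δ e y| ≤ |x - y| := by
  rcases e with _ | _ | _
  · simp [axf]
  · simp only [axf]
    have := nd_abs y x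
    rw [abs_sub_comm y x] at this
    refine le_trans (le_of_eq ?_) this
    congr 1; ring
  · simp only [axf]
    have := nd_abs x y
    refine le_trans (le_of_eq ?_) this
    congr 1; ring

lemma axf_circ (b : Bool) (x : ℝ) :
    spf δ hδ (fun b : Bool => if b then δ else 0) (axf δ) (circ δ hδ b x)
      = if b then δ + nd x else - nd x := by
  unfold circ
  rw [spf_arcPt _ (axf δ) (some b) (axf_h0 _) (axf_h1 _)
      ⟨Int.fract_nonneg x, (Int.fract_lt_one x).le⟩]
  cases b <;> simp [axf, nd_fract]

lemma axf_mid :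
    spf δ hδ (fun b : Bool => if b then δ else 0) (axf δ) (spectaclesMid δ hδ) = δ / 2 := by
  unfold spectaclesMid
  rw [spf_arcPt _ (axf δ) none (axf_h0 _) (axf_h1 _)
      ⟨by linarith, by simp only [Option.elim]; linarith⟩]
  simp [axf]

lemma cross_le_pathDist (x y : ℝ) :
    ENNReal.ofReal (nd x + δ + nd y) ≤
      (spectacles δ hδ).pathDist (circ δ hδ false x) (circ δ hδ true y) := by
  have h := spf_lip (δ := δ) (hδ := hδ) (fun b : Bool => if b then δ else 0) (axf δ)
    axf_h0 axf_h1 axf_lip
    (circ δ hδ false x) (circ δ hδ true y)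
  rw [axf_circ, axf_circ] at h
  refine le_trans (ENNReal.ofReal_le_ofReal ?_) h
  rw [abs_sub_comm]
  refine le_trans (le_of_eq ?_) (le_abs_self _)
  simp only [if_true]
  simp
  ring

lemma mid_le_pathDist (b : Bool) (x : ℝ) :
    ENNReal.ofReal (nd x + δ / 2) ≤
      (spectacles δ hδ).pathDist (spectaclesMid δ hδ) (circ δ hδ b x) := by
  have h := spf_lip (δ := δ) (hδ := hδ) (fun b : Bool => if b then δ else 0) (axf δ)
    axf_h0 axf_h1 axf_lip
    (spectaclesMid δ hδ) (circ δ hδ b x)
  rw [axf_circ, axf_mid] at h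
  refine le_trans (ENNReal.ofReal_le_ofReal ?_) h
  cases b
  · refine le_trans (le_of_eq ?_) (le_abs_self _)
    simp
    ring
  · rw [abs_sub_comm]
    refine le_trans (le_of_eq ?_) (le_abs_self _)
    simp
    ring

end Spectacles

end Pool.Agent.MP_95edb1_lc
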