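import Pool.Agent.Lib.MP_95edb1_lc.Lower1

set_option autoImplicit false

open MeasureTheory Filter Topology
open scoped ENNReal NNReal

namespace Pool.Agent.MP_95edb1_lc

/-- sign of a bit -/
def sg (b : Bool) : ℝ := if b then 1 else -1

lemma sg_abs (b : Bool) : |sg b| = 1 := by cases b <;> simp [sg]

section Hider

variable {δ : ℝ} {hδ : 0 < δ}

/-- the hider's path: wait at the antipode of `ξ` until time `1/2`, then make half tours -/
noncomputable def hpath (δ : ℝ) (hδ : 0 < δ) (b : Bool) (ξ : ℝ) (σ : ℕ → Bool) (t : ℝ) :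
    (spectacles δ hδ).Pt :=
  if t < 1 / 2 then circ δ hδ b (ξ + 1 / 2)
  else circ δ hδ b (ξ + (⌊t * 2⌋₊ : ℝ) / 2 + sg (σ ⌊t * 2⌋₊) * (t - (⌊t * 2⌋₊ : ℝ) / 2))

lemma hpath_const (b : Bool) (ξ : ℝ) (σ : ℕ → Bool) {t : ℝ} (ht : t ≤ 1 / 2) :
    hpath δ hδ b ξ σ t = circ δ hδ b (ξ + 1 / 2) := by
  unfold hpath
  split_ifs with h
  · rfl
  · have h1 : t = 1 / 2 := le_antisymm ht (not_lt.1 h)
    subst h1
    have h2 : ⌊(1 / 2 : ℝ) * 2⌋₊ = 1 := by norm_num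
    rw [h2]; simp

lemma hpath_eq (b : Bool) (ξ : ℝ) (σ : ℕ → Bool) (n : ℕ) (hn : 1 ≤ n) {t : ℝ}
    (ht : t ∈ Set.Icc ((n : ℝ) / 2) (((n : ℝ) + 1) / 2)) :
    hpath δ hδ b ξ σ t = circ δ hδ b (ξ + (n : ℝ) / 2 + sg (σ n) * (t - (n : ℝ) / 2)) := by
  have hn' : (1 : ℝ) ≤ n := by exact_mod_cast hn
  have h1 : ¬ t < 1 / 2 := by
    have := ht.1; intro h; linarith
  unfold hpath
  rw [if_neg h1]
  rcases lt_or_eq_of_le ht.2 with h | h
  · have h2 : ⌊t * 2⌋₊ = n := by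
      rw [Nat.floor_eq_iff (by linarith [ht.1])]
      constructor <;> linarith [ht.1]
    rw [h2]
  · have h2 : ⌊t * 2⌋₊ = n + 1 := by
      rw [Nat.floor_eq_iff (by linarith [ht.1])]
      push_cast
      constructor <;> linarith
    rw [h2, h]
    push_cast
    rcases hs : σ n with _ | _
    · have e1 : ξ + (n : ℝ) / 2 + sg false * (((n : ℝ) + 1) / 2 - (n : ℝ) / 2)
          = (ξ + ((n : ℝ) + 1) / 2) - 1 := by
        simp only [sg]; norm_num; ring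
      rw [e1, circ_sub_one]
      simp
    · have e1 : ξ + (n : ℝ) / 2 + sg true * (((n : ℝ) + 1) / 2 - (n : ℝ) / 2)
          = (ξ + ((n : ℝ) + 1) / 2) := by
        simp only [sg, if_true]; ring
      rw [e1]
      simp

lemma hpath_L1 (b : Bool) (ξ : ℝ) (σ : ℕ → Bool) : L1 (hpath δ hδ b ξ σ) Set.univ := by
  apply L1.grid_step (h := 1 / 2) (by norm_num)
  intro n
  rcases le_or_gt n 0 with h | h
  · intro x hx y hy hxy
    have h' : (n : ℝ) ≤ 0 := by exact_mod_cast h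
    rw [hpath_const b ξ σ (by linarith [hx.2]), hpath_const b ξ σ (by linarith [hy.2])]
    simp
  · obtain ⟨m, rfl⟩ : ∃ m : ℕ, n = m := ⟨n.toNat, by omega⟩
    have hm : 1 ≤ m := by omega
    intro x hx y hy hxy
    have hx' : x ∈ Set.Icc ((m : ℝ) / 2) (((m : ℝ) + 1) / 2) := by
      have h1 := hx.1; have h2 := hx.2; push_cast at h1 h2; constructor <;> linarith
    have hy' : y ∈ Set.Icc ((m : ℝ) / 2) (((m : ℝ) + 1) / 2) := by
      have h1 := hy.1; have h2 := hy.2; push_cast at h1 h2; constructor <;> linarith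
    rw [hpath_eq b ξ σ m hm hx', hpath_eq b ξ σ m hm hy']
    refine ((circ_L1 b).abs (Set.mem_univ _) (Set.mem_univ _)).trans (le_of_eq ?_)
    congr 1
    have : (ξ + (m : ℝ) / 2 + sg (σ m) * (x - (m : ℝ) / 2)) -
        (ξ + (m : ℝ) / 2 + sg (σ m) * (y - (m : ℝ) / 2)) = sg (σ m) * (x - y) := by ring
    rw [this, abs_mul, sg_abs, one_mul, abs_sub_comm, abs_of_nonneg (by linarith)]

/-- the hider's path as a pure strategy -/
noncomputable def hstrat (δ : ℝ) (hδ : 0 < δ) {w : ℝ} (hw : 1 ≤ w) (b : Bool) (ξ : ℝ)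
    (σ : ℕ → Bool) : (spectacles δ hδ).Hider w where
  pos t := hpath δ hδ b ξ σ t
  speed s t := by
    refine ((hpath_L1 (hδ := hδ) b ξ σ).abs (Set.mem_univ (s : ℝ)) (Set.mem_univ (t : ℝ))).trans ?_
    apply ENNReal.ofReal_le_ofReal
    have := abs_nonneg ((s : ℝ) - t)
    nlinarith

end Hider

section Meet

variable {δ : ℝ} {hδ : 0 < δ} (S : (spectacles δ hδ).Searcher (spectaclesMid δ hδ))

/-- the searcher's path with real time -/
noncomputable def spos (t : ℝ) : (spectacles δ hδ).Pt := S.pos t.toNNReal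

lemma spos_lip {s t : ℝ} (hs : 0 ≤ s) (ht : 0 ≤ t) :
    (spectacles δ hδ).pathDist (spos S s) (spos S t) ≤ ENNReal.ofReal |s - t| := by
  have := S.speed s.toNNReal t.toNNReal
  rwa [Real.coe_toNNReal s hs, Real.coe_toNNReal t ht] at this

lemma spos_zero : spos S 0 = spectaclesMid δ hδ := by
  unfold spos
  rw [Real.toNNReal_zero]
  exact S.start

/-- in phase `n` the searcher meets a hider that starts at `ξ + n / 2` and goes in direction `s` -/
def Meets (b : Bool) (ξ : ℝ) (n : ℕ) (s : Bool) : Prop :=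
  ∃ u ∈ Set.Icc (0 : ℝ) (1 / 2), spos S ((n : ℝ) / 2 + u) = circ δ hδ b (ξ + (n : ℝ) / 2 + sg s * u)

lemma ofReal_le_imp {a b : ℝ} (hb : 0 ≤ b) (h : ENNReal.ofReal a ≤ ENNReal.ofReal b) : a ≤ b :=
  (ENNReal.ofReal_le_ofReal_iff hb).1 h

/-- the searcher can meet the hider on both sides only if it is at a pole at the right time -/
lemma meets_both (b : Bool) (ξ : ℝ) (n : ℕ) (h1 : Meets S b ξ n true) (h2 : Meets S b ξ n false) :
    spos S ((n : ℝ) / 2) = circ δ hδ b (ξ + (n : ℝ) / 2) ∨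
      spos S (((n + 1 : ℕ) : ℝ) / 2) = circ δ hδ b (ξ + ((n + 1 : ℕ) : ℝ) / 2) := by
  obtain ⟨u, hu, hu'⟩ := h1
  obtain ⟨v, hv, hv'⟩ := h2
  have hn : (0 : ℝ) ≤ n := Nat.cast_nonneg n
  have h3 := spos_lip S (s := (n : ℝ) / 2 + u) (t := (n : ℝ) / 2 + v)
    (by linarith [hu.1]) (by linarith [hv.1])
  rw [hu', hv'] at h3
  have h4 := (nd_le_pathDist (hδ := hδ) b _ _).trans h3
  have e1 : ξ + (n : ℝ) / 2 + sg true * u - (ξ + (n : ℝ) / 2 + sg false * v) = u + v := by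
    simp [sg]
  have e2 : (n : ℝ) / 2 + u - ((n : ℝ) / 2 + v) = u - v := by ring
  rw [e1, e2] at h4
  have h5 := ofReal_le_imp (abs_nonneg _) h4
  rw [nd_of_mem (by linarith [hu.1, hv.1]) (by linarith [hu.2, hv.2])] at h5
  have hu1 := hu.1; have hu2 := hu.2; have hv1 := hv.1; have hv2 := hv.2
  rcases min_le_iff.1 h5 with h | h
  · rcases le_abs.1 h with h | h
    · have : v = 0 := by linarith
      left
      rw [this] at hv'
      simpa using hv'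
    · have : u = 0 := by linarith
      left
      rw [this] at hu'
      simpa using hu'
  · right
    rcases le_abs.1 h with h | h
    · have h6 : u = 1 / 2 := by linarith
      rw [h6] at hu'
      have e3 : ((n + 1 : ℕ) : ℝ) / 2 = (n : ℝ) / 2 + 1 / 2 := by push_cast; ring
      rw [e3, hu']
      congr 1
      simp [sg]; ring
    · have h6 : v = 1 / 2 := by linarith
      rw [h6] at hv'
      have e3 : ((n + 1 : ℕ) : ℝ) / 2 = (n : ℝ) / 2 + 1 / 2 := by push_cast; ring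
      rw [e3, hv', ← circ_sub_one b (ξ + ((n : ℝ) / 2 + 1 / 2))]
      congr 1
      simp [sg]; ring

lemma nd_phase (m : ℕ) (n : ℕ) (hn : n = 2 * m + 1 ∨ n = 2 * m + 2) (s : Bool) {u : ℝ}
    (hu : u ∈ Set.Icc (0 : ℝ) (1 / 2)) :
    nd ((n : ℝ) / 2 + sg s * u) = |(n : ℝ) / 2 + u - (m + 1)| := by
  have hu1 := hu.1; have hu2 := hu.2
  rcases hn with rfl | rfl
  · have e1 : ((2 * m + 1 : ℕ) : ℝ) / 2 + u - (m + 1) = -(1 / 2 - u) := by push_cast; ring
    rw [e1, abs_neg, abs_of_nonneg (by linarith)]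
    cases s
    · have e2 : ((2 * m + 1 : ℕ) : ℝ) / 2 + sg false * u = (1 / 2 - u) + (m : ℤ) := by
        simp [sg]; ring
      rw [e2, nd_add_int, nd_of_le_half (by linarith) (by linarith)]
    · have e2 : ((2 * m + 1 : ℕ) : ℝ) / 2 + sg true * u = -(1 / 2 - u) + ((m : ℤ) + 1 : ℤ) := by
        simp [sg]; ring
      rw [e2, nd_add_int, nd_neg, nd_of_le_half (by linarith) (by linarith)]
  · have e1 : ((2 * m + 2 : ℕ) : ℝ) / 2 + u - (m + 1) = u := by push_cast; ring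
    rw [e1, abs_of_nonneg hu1]
    cases s
    · have e2 : ((2 * m + 2 : ℕ) : ℝ) / 2 + sg false * u = -u + ((m : ℤ) + 1 : ℤ) := by
        simp [sg]; ring
      rw [e2, nd_add_int, nd_neg, nd_of_le_half (by linarith) (by linarith)]
    · have e2 : ((2 * m + 2 : ℕ) : ℝ) / 2 + sg true * u = u + ((m : ℤ) + 1 : ℤ) := by
        simp [sg]; ring
      rw [e2, nd_add_int, nd_of_le_half (by linarith) (by linarith)]

/-- during one in-and-out pair of phases the searcher can only look into one circle -/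
lemma meets_cross {ξ : ℝ} (hξ0 : 0 ≤ ξ) (hξ : 2 * ξ < δ) (m n1 n2 : ℕ)
    (hn1 : n1 = 2 * m + 1 ∨ n1 = 2 * m + 2) (hn2 : n2 = 2 * m + 1 ∨ n2 = 2 * m + 2)
    (s1 s2 : Bool) (h1 : Meets S false ξ n1 s1) (h2 : Meets S true ξ n2 s2) : False := by
  obtain ⟨u, hu, hu'⟩ := h1
  obtain ⟨v, hv, hv'⟩ := h2
  have hn1' : (0 : ℝ) ≤ n1 := Nat.cast_nonneg n1
  have hn2' : (0 : ℝ) ≤ n2 := Nat.cast_nonneg n2
  have h3 := spos_lip S (s := (n1 : ℝ) / 2 + u) (t := (n2 : ℝ) / 2 + v)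
    (by linarith [hu.1]) (by linarith [hv.1])
  rw [hu', hv'] at h3
  have h4 := (cross_le_pathDist (hδ := hδ) _ _).trans h3
  have h5 := ofReal_le_imp (abs_nonneg _) h4
  have e1 := nd_phase m n1 hn1 s1 hu
  have e2 := nd_phase m n2 hn2 s2 hv
  have f1 := nd_lip ((n1 : ℝ) / 2 + sg s1 * u) (ξ + (n1 : ℝ) / 2 + sg s1 * u)
  have f2 := nd_lip ((n2 : ℝ) / 2 + sg s2 * v) (ξ + (n2 : ℝ) / 2 + sg s2 * v)
  have g1 : (n1 : ℝ) / 2 + sg s1 * u - (ξ + (n1 : ℝ) / 2 + sg s1 * u) = -ξ := by ring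
  have g2 : (n2 : ℝ) / 2 + sg s2 * v - (ξ + (n2 : ℝ) / 2 + sg s2 * v) = -ξ := by ring
  rw [g1, abs_neg, abs_of_nonneg hξ0] at f1
  rw [g2, abs_neg, abs_of_nonneg hξ0] at f2
  have h6 : |(n1 : ℝ) / 2 + u - ((n2 : ℝ) / 2 + v)| ≤
      |(n1 : ℝ) / 2 + u - (m + 1)| + |(n2 : ℝ) / 2 + v - (m + 1)| := by
    have := abs_sub_le ((n1 : ℝ) / 2 + u) ((m : ℝ) + 1) ((n2 : ℝ) / 2 + v)
    rw [abs_sub_comm ((m : ℝ) + 1)] at this
    exact this
  linarith

/-- a capture at time `t` is a meeting in phase `⌊2 t⌋ ≥ 1` -/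
lemma capture_imp {b : Bool} {ξ : ℝ} (hξ0 : 0 ≤ ξ) (hξ1 : ξ ≤ 1 / 2) (hξ : 2 * ξ < δ)
    (σ : ℕ → Bool) {t : ℝ} (ht : 0 ≤ t) (h : spos S t = hpath δ hδ b ξ σ t) :
    ∃ n : ℕ, 1 ≤ n ∧ (n : ℝ) / 2 ≤ t ∧ Meets S b ξ n (σ n) := by
  rcases le_or_gt t (1 / 2) with h1 | h1
  · exfalso
    rw [hpath_const b ξ σ h1] at h
    have h2 := spos_lip S le_rfl ht
    rw [h, spos_zero] at h2
    have h3 := (mid_le_pathDist (hδ := hδ) b _).trans h2
    have h4 := ofReal_le_imp (abs_nonneg _) h3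
    have h5 : nd (ξ + 1 / 2) = 1 / 2 - ξ := by
      have := nd_of_mem (x := ξ + 1 / 2) (by linarith) (by linarith)
      rw [this, min_eq_right (by linarith)]; ring
    rw [h5, zero_sub, abs_neg, abs_of_nonneg ht] at h4
    linarith
  · have h2 : 1 ≤ ⌊t * 2⌋₊ := Nat.le_floor (by push_cast; linarith)
    have h3 : (⌊t * 2⌋₊ : ℝ) ≤ t * 2 := Nat.floor_le (by linarith)
    have h4 : t * 2 < (⌊t * 2⌋₊ : ℝ) + 1 := Nat.lt_floor_add_one _
    refine ⟨⌊t * 2⌋₊, h2, by linarith, t - (⌊t * 2⌋₊ : ℝ) / 2, ⟨by linarith, by linarith⟩, ?_⟩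
    rw [hpath_eq b ξ σ ⌊t * 2⌋₊ h2 ⟨by linarith, by linarith⟩] at h
    rw [← h]
    congr 1
    ring

end Meet

end Pool.Agent.MP_95edb1_lc
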