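import Pool.Agent.Lib.MP_95edb1_lc.Lower2

set_option autoImplicit false

open MeasureTheory Filter Topology
open scoped ENNReal NNReal

namespace Pool.Agent.MP_95edb1_lc

section Comb

lemma quarter_pow_ge {a k : ℕ} (h : a + 1 ≤ k) : 4 * (1 / 4 : ℝ) ^ k ≤ (1 / 4 : ℝ) ^ a := by
  have h1 : (1 / 4 : ℝ) ^ k ≤ (1 / 4 : ℝ) ^ (a + 1) :=
    pow_le_pow_of_le_one (by norm_num) (by norm_num) h
  rw [pow_succ] at h1
  linarith

lemma quarter_pow_ge' {a k : ℕ} (h : a ≤ k) : (1 / 4 : ℝ) ^ k ≤ (1 / 4 : ℝ) ^ a :=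
  pow_le_pow_of_le_one (by norm_num) (by norm_num) h

lemma even_bound {a b k : ℕ} (h : a + b = 2 * k) {X Y : ℝ} (hX : (1 / 4 : ℝ) ^ a ≤ X)
    (hY : (1 / 4 : ℝ) ^ b ≤ Y) : 11 / 4 * (1 / 4 : ℝ) ^ k ≤ 2 * X + 3 / 4 * Y := by
  have hk : (0 : ℝ) < (1 / 4 : ℝ) ^ k := by positivity
  have ha : (0 : ℝ) < (1 / 4 : ℝ) ^ a := by positivity
  have hb : (0 : ℝ) < (1 / 4 : ℝ) ^ b := by positivity
  rcases lt_trichotomy a k with h1 | h1 | h1
  · have := quarter_pow_ge (a := a) (k := k) (by omega)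
    linarith
  · have h2 : b = k := by omega
    rw [h1] at hX; rw [h2] at hY
    linarith
  · have := quarter_pow_ge (a := b) (k := k) (by omega)
    linarith

lemma odd_bound {a b k : ℕ} (h : a + b = 2 * k + 1) {X Y : ℝ} (hX : (1 / 4 : ℝ) ^ a ≤ X)
    (hY : (1 / 4 : ℝ) ^ b ≤ Y) : 5 / 4 * (1 / 4 : ℝ) ^ k ≤ 2 * X + 3 / 4 * Y := by
  have hk : (0 : ℝ) < (1 / 4 : ℝ) ^ k := by positivity
  have ha : (0 : ℝ) < (1 / 4 : ℝ) ^ a := by positivity
  have hb : (0 : ℝ) < (1 / 4 : ℝ) ^ b := by positivity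
  rcases lt_or_ge k a with h1 | h1
  · rcases lt_or_ge b k with h2 | h2
    · have := quarter_pow_ge (a := b) (k := k) (by omega)
      linarith
    · have h3 : b = k := by omega
      have h4 : a = k + 1 := by omega
      rw [h3] at hY; rw [h4, pow_succ] at hX
      linarith
  · have := quarter_pow_ge' h1
    linarith

/-- product of the survival factors of the first `n` phases -/
noncomputable def xprod (θ : ℕ → ℝ) (n : ℕ) : ℝ := ∏ i ∈ Finset.range n, θ i

lemma comb_pow (θ : Bool → ℕ → ℝ) (M : ℕ) (h1 : ∀ b i, i < 2 * M → 1 / 2 ≤ θ b i)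
    (h2 : ∀ m, m < M → ∃ b, θ b (2 * m) = 1 ∧ θ b (2 * m + 1) = 1) (m : ℕ) (hm : m ≤ M) :
    ∃ a b : ℕ, a + b = m ∧ (1 / 4 : ℝ) ^ a ≤ xprod (θ true) (2 * m) ∧
      (1 / 4 : ℝ) ^ b ≤ xprod (θ false) (2 * m) := by
  induction m with
  | zero => exact ⟨0, 0, rfl, by simp [xprod], by simp [xprod]⟩
  | succ m ih =>
    obtain ⟨a, b, hab, ha, hb⟩ := ih (by omega)
    have e : ∀ c, xprod (θ c) (2 * (m + 1)) = xprod (θ c) (2 * m) * θ c (2 * m) * θ c (2 * m + 1) := by
      intro c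
      have : 2 * (m + 1) = 2 * m + 1 + 1 := by ring
      rw [this]
      unfold xprod
      rw [Finset.prod_range_succ, Finset.prod_range_succ]
    have hpa : (0 : ℝ) < (1 / 4 : ℝ) ^ a := by positivity
    have hpb : (0 : ℝ) < (1 / 4 : ℝ) ^ b := by positivity
    have key : ∀ c (k : ℕ), (1 / 4 : ℝ) ^ k ≤ xprod (θ c) (2 * m) →
        (1 / 4 : ℝ) ^ (k + 1) ≤ xprod (θ c) (2 * m) * θ c (2 * m) * θ c (2 * m + 1) := by
      intro c k hk
      have g1 := h1 c (2 * m) (by omega)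
      have g2 := h1 c (2 * m + 1) (by omega)
      have hk0 : (0 : ℝ) < (1 / 4 : ℝ) ^ k := by positivity
      have g3 : (1 / 4 : ℝ) ≤ θ c (2 * m) * θ c (2 * m + 1) := by nlinarith
      rw [pow_succ, mul_assoc]
      exact mul_le_mul hk g3 (by norm_num) (by linarith)
    obtain ⟨c, hc1, hc2⟩ := h2 m (by omega)
    cases c
    · refine ⟨a + 1, b, by omega, ?_, ?_⟩
      · rw [e]; exact key true a ha
      · rw [e, hc1, hc2]; simpa using hb
    · refine ⟨a, b + 1, by omega, ?_, ?_⟩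
      · rw [e, hc1, hc2]; simpa using ha
      · rw [e]; exact key false b hb

/-- contribution of one pair of phases -/
lemma comb_pair (θ : Bool → ℕ → ℝ) (M : ℕ) (h1 : ∀ b i, i < 2 * M → 1 / 2 ≤ θ b i)
    (h2 : ∀ m, m < M → ∃ b, θ b (2 * m) = 1 ∧ θ b (2 * m + 1) = 1) (m : ℕ) (hm : m < M) :
    ∃ a b : ℕ, a + b = m ∧ ∃ X Y : ℝ, (1 / 4 : ℝ) ^ a ≤ X ∧ (1 / 4 : ℝ) ^ b ≤ Y ∧
      2 * X + 3 / 4 * Y ≤ (xprod (θ true) (2 * m + 1) + xprod (θ false) (2 * m + 1)) +
        (xprod (θ true) (2 * m + 2) + xprod (θ false) (2 * m + 2)) := by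
  obtain ⟨a, b, hab, ha, hb⟩ := comb_pow θ M h1 h2 m hm.le
  have e1 : ∀ c, xprod (θ c) (2 * m + 1) = xprod (θ c) (2 * m) * θ c (2 * m) := by
    intro c; unfold xprod; rw [Finset.prod_range_succ]
  have e2 : ∀ c, xprod (θ c) (2 * m + 2) =
      xprod (θ c) (2 * m) * (θ c (2 * m) * θ c (2 * m + 1)) := by
    intro c; unfold xprod; rw [Finset.prod_range_succ, Finset.prod_range_succ, mul_assoc]
  have g : ∀ c, (1 / 2 : ℝ) ≤ θ c (2 * m) ∧ (1 / 4 : ℝ) ≤ θ c (2 * m) * θ c (2 * m + 1) := by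
    intro c
    have g1 := h1 c (2 * m) (by omega)
    have g2 := h1 c (2 * m + 1) (by omega)
    exact ⟨g1, by nlinarith⟩
  have hpa : (0 : ℝ) < (1 / 4 : ℝ) ^ a := by positivity
  have hpb : (0 : ℝ) < (1 / 4 : ℝ) ^ b := by positivity
  obtain ⟨c, hc1, hc2⟩ := h2 m hm
  cases c
  · refine ⟨b, a, by omega, xprod (θ false) (2 * m), xprod (θ true) (2 * m), hb, ha, ?_⟩
    rw [e1, e1, e2, e2, hc1, hc2]
    have := g true
    nlinarith
  · refine ⟨a, b, by omega, xprod (θ true) (2 * m), xprod (θ false) (2 * m), ha, hb, ?_⟩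
    rw [e1, e1, e2, e2, hc1, hc2]
    have := g false
    nlinarith

lemma comb (θ : Bool → ℕ → ℝ) (K : ℕ) (h1 : ∀ b i, i < 4 * K → 1 / 2 ≤ θ b i)
    (h2 : ∀ m, m < 2 * K → ∃ b, θ b (2 * m) = 1 ∧ θ b (2 * m + 1) = 1) :
    16 / 3 * (1 - (1 / 4 : ℝ) ^ K) ≤
      ∑ n ∈ Finset.range (4 * K), (xprod (θ true) (n + 1) + xprod (θ false) (n + 1)) := by
  have key : ∀ k, k ≤ K → 16 / 3 * (1 - (1 / 4 : ℝ) ^ k) ≤
      ∑ n ∈ Finset.range (4 * k), (xprod (θ true) (n + 1) + xprod (θ false) (n + 1)) := by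
    intro k
    induction k with
    | zero => intro _; simp
    | succ k ih =>
      intro hk
      have ih' := ih (by omega)
      have e : 4 * (k + 1) = 4 * k + 1 + 1 + 1 + 1 := by ring
      rw [e, Finset.sum_range_succ, Finset.sum_range_succ, Finset.sum_range_succ,
        Finset.sum_range_succ]
      obtain ⟨a, b, hab, X, Y, hX, hY, hXY⟩ := comb_pair θ (2 * K)
        (fun b i hi => h1 b i (by omega)) h2 (2 * k) (by omega)
      obtain ⟨a', b', hab', X', Y', hX', hY', hXY'⟩ := comb_pair θ (2 * K)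
        (fun b i hi => h1 b i (by omega)) h2 (2 * k + 1) (by omega)
      have g1 := even_bound hab hX hY
      have g2 := odd_bound hab' hX' hY'
      have e1 : 2 * (2 * k) + 1 = 4 * k + 1 := by ring
      have e2 : 2 * (2 * k) + 2 = 4 * k + 1 + 1 := by ring
      have e3 : 2 * (2 * k + 1) + 1 = 4 * k + 1 + 1 + 1 := by ring
      have e4 : 2 * (2 * k + 1) + 2 = 4 * k + 1 + 1 + 1 + 1 := by ring
      rw [e1, e2] at hXY
      rw [e3, e4] at hXY'
      rw [pow_succ]
      linarith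
  exact key K le_rfl

end Comb

section Count

variable {δ : ℝ} {hδ : 0 < δ} (S : (spectacles δ hδ).Searcher (spectaclesMid δ hδ))

open Classical in
/-- indicator of surviving phase `i + 1` in direction `s` -/
noncomputable def chi (b : Bool) (ξ : ℝ) (i : ℕ) (s : Bool) : ℝ :=
  if Meets S b ξ (i + 1) s then 0 else 1

/-- survival factor of phase `i + 1` -/
noncomputable def theta (b : Bool) (ξ : ℝ) (i : ℕ) : ℝ :=
  (chi S b ξ i true + chi S b ξ i false) / 2

lemma chi_nonneg (b : Bool) (ξ : ℝ) (i : ℕ) (s : Bool) : 0 ≤ chi S b ξ i s := by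
  unfold chi; split_ifs <;> norm_num

lemma chi_le_one (b : Bool) (ξ : ℝ) (i : ℕ) (s : Bool) : chi S b ξ i s ≤ 1 := by
  unfold chi; split_ifs <;> norm_num

/-- the searcher is never at a pole at the time when the hider passes it -/
def Good (ξ : ℝ) (J : ℕ) : Prop :=
  ∀ b : Bool, ∀ n : ℕ, n ≤ J + 1 → spos S ((n : ℝ) / 2) ≠ circ δ hδ b (ξ + (n : ℝ) / 2)

lemma theta_ge {ξ : ℝ} {J : ℕ} (hg : Good S ξ J) (b : Bool) (i : ℕ) (hi : i < J) :
    1 / 2 ≤ theta S b ξ i := by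
  unfold theta chi
  split_ifs with h1 h2 h2
  · exfalso
    rcases meets_both S b ξ (i + 1) h1 h2 with h | h
    · exact hg b (i + 1) (by omega) h
    · exact hg b (i + 1 + 1) (by omega) h
  all_goals norm_num

lemma theta_one {ξ : ℝ} (hξ0 : 0 ≤ ξ) (hξ : 2 * ξ < δ) (m : ℕ) :
    ∃ b, theta S b ξ (2 * m) = 1 ∧ theta S b ξ (2 * m + 1) = 1 := by
  by_contra hcon
  push Not at hcon
  have key : ∀ b, ∃ n s, (n = 2 * m + 1 ∨ n = 2 * m + 2) ∧ Meets S b ξ n s := by
    intro b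
    by_contra hno
    push Not at hno
    have e : ∀ i, (i = 2 * m ∨ i = 2 * m + 1) → theta S b ξ i = 1 := by
      intro i hi
      unfold theta chi
      rw [if_neg (hno (i + 1) true (by omega)), if_neg (hno (i + 1) false (by omega))]
      norm_num
    exact hcon b (e _ (Or.inl rfl)) (e _ (Or.inr rfl))
  obtain ⟨n1, s1, hn1, h1⟩ := key false
  obtain ⟨n2, s2, hn2, h2⟩ := key true
  exact meets_cross S hξ0 hξ m n1 n2 hn1 hn2 s1 s2 h1 h2

/-- the extension of a finite sequence of directions -/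
def ext {J : ℕ} (σ : Fin J → Bool) (n : ℕ) : Bool :=
  if h : n - 1 < J then σ ⟨n - 1, h⟩ else true

lemma ext_succ {J : ℕ} (σ : Fin J → Bool) (i : Fin J) : ext σ (i.1 + 1) = σ i := by
  unfold ext
  have h : i.1 + 1 - 1 < J := by have := i.2; omega
  rw [dif_pos h]
  congr 1

/-- survival indicator of the first `n` phases -/
noncomputable def alv (b : Bool) (ξ : ℝ) (σ : ℕ → Bool) (n : ℕ) : ℝ :=
  ∏ i ∈ Finset.range n, chi S b ξ i (σ (i + 1))

lemma alv_nonneg (b : Bool) (ξ : ℝ) (σ : ℕ → Bool) (n : ℕ) : 0 ≤ alv S b ξ σ n :=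
  Finset.prod_nonneg fun _ _ => chi_nonneg S _ _ _ _

lemma alv_le_one (b : Bool) (ξ : ℝ) (σ : ℕ → Bool) (n : ℕ) : alv S b ξ σ n ≤ 1 :=
  Finset.prod_le_one (fun _ _ => chi_nonneg S _ _ _ _) fun _ _ => chi_le_one S _ _ _ _

/-- a lower bound for the capture time -/
noncomputable def tval (b : Bool) (ξ : ℝ) (σ : ℕ → Bool) (J : ℕ) : ℝ :=
  1 / 2 + 1 / 2 * ∑ n ∈ Finset.range J, alv S b ξ σ (n + 1)

lemma tval_le {b : Bool} {ξ : ℝ} (hξ0 : 0 ≤ ξ) (hξ1 : ξ ≤ 1 / 2) (hξ : 2 * ξ < δ)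
    (σ : ℕ → Bool) (J : ℕ) {t : ℝ} (ht : 0 ≤ t) (h : spos S t = hpath δ hδ b ξ σ t) :
    tval S b ξ σ J ≤ t := by
  obtain ⟨n, hn1, hnt, hM⟩ := capture_imp S hξ0 hξ1 hξ σ ht h
  have hz : ∀ k, n ≤ k → alv S b ξ σ k = 0 := by
    intro k hk
    apply Finset.prod_eq_zero (i := n - 1) (Finset.mem_range.2 (by omega))
    unfold chi
    have e : n - 1 + 1 = n := by omega
    rw [e, if_pos hM]
  have hsum : ∑ k ∈ Finset.range J, alv S b ξ σ (k + 1) ≤ (n : ℝ) - 1 := by
    calc ∑ k ∈ Finset.range J, alv S b ξ σ (k + 1)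
        ≤ ∑ k ∈ Finset.range J, if k < n - 1 then (1 : ℝ) else 0 := by
          apply Finset.sum_le_sum
          intro k _
          split_ifs with hk
          · exact alv_le_one S _ _ _ _
          · rw [hz (k + 1) (by omega)]
      _ = ((Finset.range J).filter (fun k => k < n - 1)).card := by
          rw [Finset.sum_ite, Finset.sum_const_zero, add_zero, Finset.sum_const, nsmul_eq_mul,
            mul_one]
      _ ≤ ((Finset.range (n - 1)).card : ℝ) := by
          norm_cast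
          apply Finset.card_le_card
          intro k hk
          rw [Finset.mem_filter] at hk
          exact Finset.mem_range.2 hk.2
      _ = (n : ℝ) - 1 := by
          rw [Finset.card_range, Nat.cast_sub hn1, Nat.cast_one]
  unfold tval
  linarith

lemma sum_alv (b : Bool) (ξ : ℝ) (J n : ℕ) (hn : n ≤ J) :
    ∑ σ : Fin J → Bool, alv S b ξ (ext σ) n = 2 ^ J * xprod (theta S b ξ) n := by
  have h1 : ∀ σ : Fin J → Bool, alv S b ξ (ext σ) n =
      ∏ i : Fin J, (if i.1 < n then chi S b ξ i.1 (σ i) else 1) := by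
    intro σ
    have e1 : ∏ i : Fin J, (if i.1 < n then chi S b ξ i.1 (σ i) else 1) =
        ∏ i : Fin J, (fun k : ℕ => if k < n then chi S b ξ k (ext σ (k + 1)) else 1) i.1 := by
      apply Finset.prod_congr rfl
      intro i _
      simp only [ext_succ]
    rw [e1, Finset.prod_range (f := fun k : ℕ =>
      if k < n then chi S b ξ k (ext σ (k + 1)) else 1) |>.symm]
    unfold alv
    rw [← Finset.prod_subset (Finset.range_subset_range.2 hn)]
    · apply Finset.prod_congr rfl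
      intro k hk
      rw [if_pos (Finset.mem_range.1 hk)]
    · intro k _ hk
      rw [if_neg (fun h => hk (Finset.mem_range.2 h))]
  simp_rw [h1]
  have h2 := Finset.prod_univ_sum (fun _ : Fin J => (Finset.univ : Finset Bool))
    (fun i s => if i.1 < n then chi S b ξ i.1 s else 1)
  rw [Fintype.piFinset_univ] at h2
  rw [← h2]
  have h3 : ∀ i : Fin J, ∑ s : Bool, (if i.1 < n then chi S b ξ i.1 s else 1) =
      (fun k : ℕ => 2 * (if k < n then theta S b ξ k else 1)) i.1 := by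
    intro i
    simp only [Fintype.sum_bool]
    split_ifs
    · unfold theta; ring
    · norm_num
  rw [Finset.prod_congr rfl (fun i _ => h3 i), ← Finset.prod_range (f := fun k : ℕ =>
      2 * (if k < n then theta S b ξ k else 1)), Finset.prod_mul_distrib, Finset.prod_const,
      Finset.card_range]
  congr 1
  unfold xprod
  symm
  rw [← Finset.prod_subset (Finset.range_subset_range.2 hn)]
  · apply Finset.prod_congr rfl
    intro k hk
    rw [if_pos (Finset.mem_range.1 hk)]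
  · intro k _ hk
    rw [if_neg (fun h => hk (Finset.mem_range.2 h))]

/-- total over the two circles and all directions, for a good `ξ` -/
lemma sum_tval_ge {ξ : ℝ} (hξ0 : 0 ≤ ξ) (hξ : 2 * ξ < δ) (K : ℕ) (hg : Good S ξ (4 * K)) :
    2 ^ (4 * K) * 2 * (1 / 2 + 4 / 3 * (1 - (1 / 4 : ℝ) ^ K)) ≤
      ∑ b : Bool, ∑ σ : Fin (4 * K) → Bool, tval S b ξ (ext σ) (4 * K) := by
  have h1 : ∀ b : Bool, ∑ σ : Fin (4 * K) → Bool, tval S b ξ (ext σ) (4 * K) =
      2 ^ (4 * K) * (1 / 2) +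
        1 / 2 * ∑ n ∈ Finset.range (4 * K), 2 ^ (4 * K) * xprod (theta S b ξ) (n + 1) := by
    intro b
    unfold tval
    rw [Finset.sum_add_distrib, ← Finset.mul_sum, Finset.sum_comm]
    congr 1
    · simp
    · congr 1
      apply Finset.sum_congr rfl
      intro n hn
      exact sum_alv S b ξ (4 * K) (n + 1) (Finset.mem_range.1 hn)
  have h2 := comb (fun b => theta S b ξ) K (fun b i hi => theta_ge S hg b i hi)
    (fun m _ => theta_one S hξ0 hξ m)
  rw [Fintype.sum_bool, h1, h1, ← Finset.mul_sum, ← Finset.mul_sum]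
  rw [Finset.sum_add_distrib] at h2
  have hp : (0 : ℝ) < 2 ^ (4 * K) := by positivity
  nlinarith

end Count

end Pool.Agent.MP_95edb1_lc
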