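import Pool.Agent.Lib.MP_95edb1_lc.Lower3

set_option autoImplicit false

open MeasureTheory Filter Topology
open scoped ENNReal NNReal

namespace Pool.Agent.MP_95edb1_lc

/-- the uniform probability on a finite type -/
noncomputable def unif (Ω : Type) [Fintype Ω] [MeasurableSpace Ω] : Measure Ω :=
  (Fintype.card Ω : ℝ≥0∞)⁻¹ • Measure.count

lemma unif_prob (Ω : Type) [Fintype Ω] [Nonempty Ω] [MeasurableSpace Ω]
    [MeasurableSingletonClass Ω] : IsProbabilityMeasure (unif Ω) := by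
  constructor
  unfold unif
  rw [Measure.smul_apply, Measure.count_univ, smul_eq_mul, ENat.card_eq_coe_fintype_card]
  simp only [ENat.toENNReal_coe]
  apply ENNReal.inv_mul_cancel
  · simp
  · simp

lemma lintegral_unif (Ω : Type) [Fintype Ω] [MeasurableSpace Ω]
    [MeasurableSingletonClass Ω] (f : Ω → ℝ≥0∞) :
    ∫⁻ ω, f ω ∂(unif Ω) = (Fintype.card Ω : ℝ≥0∞)⁻¹ * ∑ ω, f ω := by
  unfold unif
  rw [lintegral_smul_measure, lintegral_count, tsum_fintype, smul_eq_mul]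

section

variable {δ : ℝ} {hδ : 0 < δ}

/-- the jitter -/
noncomputable def jit (δ : ℝ) (L : ℕ) (l : Fin L) : ℝ := δ / 4 * ((l.1 : ℝ) / L)

lemma jit_nonneg (hδ : 0 < δ) {L : ℕ} (l : Fin L) : 0 ≤ jit δ L l := by
  unfold jit; positivity

lemma jit_lt (hδ : 0 < δ) {L : ℕ} (l : Fin L) : 4 * jit δ L l < δ := by
  unfold jit
  have hL : (0 : ℝ) < L := by exact_mod_cast (l.1.zero_le.trans_lt l.2)
  have h1 : ((l.1 : ℝ) / L) < 1 := by
    rw [div_lt_one hL]; exact_mod_cast l.2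
  nlinarith

lemma jit_inj (hδ : 0 < δ) {L : ℕ} {l l' : Fin L} (h : jit δ L l = jit δ L l') : l = l' := by
  unfold jit at h
  have hL : (0 : ℝ) < L := by exact_mod_cast (l.1.zero_le.trans_lt l.2)
  have h1 : (l.1 : ℝ) = l'.1 := by
    have h2 : δ / 4 ≠ 0 := by positivity
    have h3 := mul_left_cancel₀ h2 h
    field_simp at h3
    exact h3
  exact Fin.ext (by exact_mod_cast h1)

variable (S : (spectacles δ hδ).Searcher (spectaclesMid δ hδ))

lemma circ_inj (b : Bool) {x y z : ℝ} (hxy : |x - y| ≤ 1 / 2)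
    (h : circ δ hδ b (x + z) = circ δ hδ b (y + z)) : x = y := by
  have h1 := nd_le_pathDist (hδ := hδ) b (x + z) (y + z)
  rw [h] at h1
  have h2 : (spectacles δ hδ).pathDist (circ δ hδ b (y + z)) (circ δ hδ b (y + z)) = 0 :=
    edist_self (α := (spectacles δ hδ).Pt) _
  rw [h2] at h1
  have h3 : nd (x + z - (y + z)) ≤ 0 := by
    have := nonpos_iff_eq_zero.1 h1
    exact ENNReal.ofReal_eq_zero.1 this
  have e : x + z - (y + z) = x - y := by ring
  rw [e] at h3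
  rcases le_total 0 (x - y) with h4 | h4
  · rw [nd_of_le_half h4 (by rwa [abs_of_nonneg h4] at hxy)] at h3
    linarith
  · rw [← nd_neg, nd_of_le_half (by linarith) (by rwa [abs_of_nonpos h4] at hxy)] at h3
    linarith

open Classical in
/-- at most `2 (J + 2)` jitters are bad -/
lemma card_bad (hδ1 : δ < 1) (J L : ℕ) :
    (Finset.univ.filter fun l : Fin L => ¬ Good S (jit δ L l) J).card ≤ 2 * (J + 2) := by
  have h1 : (Finset.univ.filter fun l : Fin L => ¬ Good S (jit δ L l) J) ⊆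
      ((Finset.univ : Finset Bool) ×ˢ Finset.range (J + 2)).biUnion fun p =>
        Finset.univ.filter fun l : Fin L =>
          spos S ((p.2 : ℝ) / 2) = circ δ hδ p.1 (jit δ L l + (p.2 : ℝ) / 2) := by
    intro l hl
    rw [Finset.mem_filter] at hl
    unfold Good at hl
    push Not at hl
    obtain ⟨b, n, hn, h⟩ := hl.2
    rw [Finset.mem_biUnion]
    refine ⟨(b, n), ?_, ?_⟩
    · simp; omega
    · simp [h]
  refine (Finset.card_le_card h1).trans ?_
  refine (Finset.card_biUnion_le_card_mul _ _ 1 ?_).trans ?_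
  · intro p _
    rw [Finset.card_le_one]
    intro l hl l' hl'
    rw [Finset.mem_filter] at hl hl'
    apply jit_inj hδ
    apply circ_inj (hδ := hδ) p.1 (z := (p.2 : ℝ) / 2)
    · have a1 := jit_nonneg hδ l
      have a2 := jit_nonneg hδ l'
      have a3 := jit_lt hδ l
      have a4 := jit_lt hδ l'
      rw [abs_le]; constructor <;> linarith
    · rw [← hl.2, ← hl'.2]
  · rw [Finset.card_product, Finset.card_range]
    simp

lemma tval_nonneg (b : Bool) (ξ : ℝ) (σ : ℕ → Bool) (J : ℕ) : 0 ≤ tval S b ξ σ J := by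
  unfold tval
  have : 0 ≤ ∑ n ∈ Finset.range J, alv S b ξ σ (n + 1) :=
    Finset.sum_nonneg fun _ _ => alv_nonneg S _ _ _ _
  linarith

open Classical in
lemma sum_all_ge (hδ1 : δ < 1) (K L : ℕ) :
    ((L : ℝ) - 2 * (4 * K + 2)) * (2 ^ (4 * K) * 2 * (1 / 2 + 4 / 3 * (1 - (1 / 4 : ℝ) ^ K))) ≤
      ∑ l : Fin L, ∑ b : Bool, ∑ σ : Fin (4 * K) → Bool,
        tval S b (jit δ L l) (ext σ) (4 * K) := by
  set c : ℝ := 2 ^ (4 * K) * 2 * (1 / 2 + 4 / 3 * (1 - (1 / 4 : ℝ) ^ K)) with hc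
  have hc0 : 0 ≤ c := by
    have : (1 / 4 : ℝ) ^ K ≤ 1 := pow_le_one₀ (by norm_num) (by norm_num)
    rw [hc]
    have h2 : (0 : ℝ) < 2 ^ (4 * K) := by positivity
    apply mul_nonneg (by positivity)
    linarith
  have h1 : ∀ l : Fin L, (if Good S (jit δ L l) (4 * K) then c else 0) ≤
      ∑ b : Bool, ∑ σ : Fin (4 * K) → Bool, tval S b (jit δ L l) (ext σ) (4 * K) := by
    intro l
    split_ifs with h
    · exact sum_tval_ge S (jit_nonneg hδ l)
        (by have := jit_lt hδ l; have := jit_nonneg hδ l; linarith) K h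
    · exact Finset.sum_nonneg fun b _ => Finset.sum_nonneg fun σ _ => tval_nonneg S _ _ _ _
  refine le_trans ?_ (Finset.sum_le_sum fun l _ => h1 l)
  rw [Finset.sum_ite, Finset.sum_const_zero, add_zero, Finset.sum_const, nsmul_eq_mul]
  apply mul_le_mul_of_nonneg_right _ hc0
  have h2 := card_bad S hδ1 (4 * K) L
  have h3 := Finset.card_filter_add_card_filter_not (s := (Finset.univ : Finset (Fin L)))
    (fun l => Good S (jit δ L l) (4 * K))
  rw [Finset.card_univ, Fintype.card_fin] at h3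
  have h4 : (L : ℝ) = ((Finset.univ.filter fun l : Fin L => Good S (jit δ L l) (4 * K)).card : ℝ) +
      ((Finset.univ.filter fun l : Fin L => ¬ Good S (jit δ L l) (4 * K)).card : ℝ) := by
    exact_mod_cast h3.symm
  have h5 : ((Finset.univ.filter fun l : Fin L => ¬ Good S (jit δ L l) (4 * K)).card : ℝ) ≤
      2 * (4 * K + 2) := by exact_mod_cast h2
  linarith

/-- sample space of the hider -/
abbrev HΩ (K L : ℕ) : Type := Fin L × Bool × (Fin (4 * K) → Bool)

/-- the hider's mixed strategy -/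
noncomputable def hmix (δ : ℝ) (hδ : 0 < δ) {w : ℝ} (hw : 1 ≤ w) (K L : ℕ) [NeZero L] :
    (spectacles δ hδ).MixedHider w where
  Ω := HΩ K L
  mΩ := inferInstance
  P := unif (HΩ K L)
  prob := unif_prob (HΩ K L)
  strat ω := hstrat δ hδ hw ω.2.1 (jit δ L ω.1) (ext ω.2.2)
  meas _ _ _ := (Set.toFinite _).measurableSet

lemma captureTime_ge {w : ℝ} (hw : 1 ≤ w) (hδ1 : δ < 1) (K L : ℕ) (ω : HΩ K L) :
    ENNReal.ofReal (tval S ω.2.1 (jit δ L ω.1) (ext ω.2.2) (4 * K)) ≤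
      Network.captureTime S (hstrat δ hδ hw ω.2.1 (jit δ L ω.1) (ext ω.2.2)) := by
  refine le_iInf₂ fun t ht => ?_
  have a1 := jit_nonneg hδ ω.1
  have a3 := jit_lt hδ ω.1
  have h : spos S (t : ℝ) = hpath δ hδ ω.2.1 (jit δ L ω.1) (ext ω.2.2) (t : ℝ) := by
    unfold spos
    rw [Real.toNNReal_coe, ht]
    rfl
  have := tval_le S a1 (by linarith) (by linarith) (ext ω.2.2) (4 * K) t.2 h
  rw [← ENNReal.ofReal_coe_nnreal]
  exact ENNReal.ofReal_le_ofReal this

lemma lowerValue_ge_aux {w : ℝ} (hw : 1 ≤ w) (hδ1 : δ < 1) (K L : ℕ) [NeZero L] :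
    ENNReal.ofReal ((1 - 2 * (4 * K + 2) / L) * (1 / 2 + 4 / 3 * (1 - (1 / 4 : ℝ) ^ K))) ≤
      (spectacles δ hδ).lowerValue (spectaclesMid δ hδ) w := by
  refine le_iSup_of_le (hmix δ hδ hw K L) (le_iInf fun S => ?_)
  have h1 : @lintegral (hmix δ hδ hw K L).Ω (hmix δ hδ hw K L).mΩ (hmix δ hδ hw K L).P
      (fun ω => Network.captureTime S ((hmix δ hδ hw K L).strat ω)) =
      (Fintype.card (HΩ K L) : ℝ≥0∞)⁻¹ * ∑ ω : HΩ K L,
        Network.captureTime S (hstrat δ hδ hw ω.2.1 (jit δ L ω.1) (ext ω.2.2)) :=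
    lintegral_unif (HΩ K L) _
  rw [h1]
  have h2 : ENNReal.ofReal (∑ ω : HΩ K L, tval S ω.2.1 (jit δ L ω.1) (ext ω.2.2) (4 * K)) ≤
      ∑ ω : HΩ K L, Network.captureTime S (hstrat δ hδ hw ω.2.1 (jit δ L ω.1) (ext ω.2.2)) := by
    rw [ENNReal.ofReal_sum_of_nonneg (fun ω _ => tval_nonneg S _ _ _ _)]
    exact Finset.sum_le_sum fun ω _ => captureTime_ge S hw hδ1 K L ω
  refine le_trans ?_ (mul_le_mul_right h2 _)
  have hL : (0 : ℝ) < L := by
    have := NeZero.ne L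
    positivity
  have hcard : (Fintype.card (HΩ K L) : ℝ) = L * (2 * 2 ^ (4 * K)) := by
    simp [HΩ, Fintype.card_prod]
  have hcp : (0 : ℝ) < (Fintype.card (HΩ K L) : ℝ) := by rw [hcard]; positivity
  have e1 : (Fintype.card (HΩ K L) : ℝ≥0∞)⁻¹ = ENNReal.ofReal ((Fintype.card (HΩ K L) : ℝ)⁻¹) := by
    rw [ENNReal.ofReal_inv_of_pos hcp, ENNReal.ofReal_natCast]
  rw [e1, ← ENNReal.ofReal_mul (by positivity)]
  apply ENNReal.ofReal_le_ofReal
  have h3 := sum_all_ge S hδ1 K L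
  have h4 : ∑ ω : HΩ K L, tval S ω.2.1 (jit δ L ω.1) (ext ω.2.2) (4 * K) =
      ∑ l : Fin L, ∑ b : Bool, ∑ σ : Fin (4 * K) → Bool,
        tval S b (jit δ L l) (ext σ) (4 * K) := by
    rw [Fintype.sum_prod_type]
    apply Finset.sum_congr rfl
    intro l _
    rw [Fintype.sum_prod_type]
  rw [h4, hcard]
  refine le_trans (le_of_eq ?_) (mul_le_mul_of_nonneg_left h3 (by positivity))
  field_simp

theorem lowerValue_ge {w : ℝ} (hw : 1 ≤ w) (hδ1 : δ < 1) :
    ENNReal.ofReal (11 / 6) ≤ (spectacles δ hδ).lowerValue (spectaclesMid δ hδ) w := by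
  have h1 : ∀ K : ℕ, ENNReal.ofReal (1 / 2 + 4 / 3 * (1 - (1 / 4 : ℝ) ^ K)) ≤
      (spectacles δ hδ).lowerValue (spectaclesMid δ hδ) w := by
    intro K
    have ht : Tendsto (fun L : ℕ => ENNReal.ofReal
        ((1 - 2 * (4 * K + 2) / ((L + 1 : ℕ) : ℝ)) * (1 / 2 + 4 / 3 * (1 - (1 / 4 : ℝ) ^ K))))
        atTop (𝓝 (ENNReal.ofReal ((1 - 0) * (1 / 2 + 4 / 3 * (1 - (1 / 4 : ℝ) ^ K))))) := by
      apply ENNReal.tendsto_ofReal
      apply Tendsto.mul_const
      apply Tendsto.const_sub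
      have := (tendsto_const_div_atTop_nhds_zero_nat (2 * (4 * (K : ℝ) + 2)))
      exact (tendsto_add_atTop_iff_nat 1).2 this
    rw [sub_zero, one_mul] at ht
    exact le_of_tendsto' ht fun L => lowerValue_ge_aux hw hδ1 K (L + 1)
  have ht : Tendsto (fun K : ℕ => ENNReal.ofReal (1 / 2 + 4 / 3 * (1 - (1 / 4 : ℝ) ^ K)))
      atTop (𝓝 (ENNReal.ofReal (1 / 2 + 4 / 3 * (1 - 0)))) := by
    apply ENNReal.tendsto_ofReal
    apply Tendsto.const_add
    apply Tendsto.const_mul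
    apply Tendsto.const_sub
    exact tendsto_pow_atTop_nhds_zero_of_lt_one (by norm_num) (by norm_num)
  have e : (1 / 2 + 4 / 3 * (1 - 0) : ℝ) = 11 / 6 := by norm_num
  rw [e] at ht
  exact le_of_tendsto' ht h1

end

/-- `σ ≥ 11 / 12`. -/
theorem sigmaLower_ge {w : ℝ} (hw : 1 ≤ w) : ENNReal.ofReal (11 / 12) ≤ sigmaLower w := by
  unfold sigmaLower
  have h1 : ENNReal.ofReal (11 / 12) =
      liminf (fun δ : Set.Ioi (0 : ℝ) => ENNReal.ofReal (11 / 6 / (2 + δ.1)))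
        (comap Subtype.val (𝓝 (0 : ℝ))) := by
    symm
    have hne : (comap (Subtype.val : Set.Ioi (0 : ℝ) → ℝ) (𝓝 (0 : ℝ))).NeBot := by
      rw [comap_neBot_iff]
      intro t ht
      have : (𝓝[>] (0 : ℝ)).NeBot := inferInstance
      have h2 : (t ∩ Set.Ioi (0 : ℝ)).Nonempty :=
        this.nonempty_of_mem (inter_mem (mem_nhdsWithin_of_mem_nhds ht) self_mem_nhdsWithin)
      obtain ⟨x, hx1, hx2⟩ := h2
      exact ⟨⟨x, hx2⟩, hx1⟩
    apply Tendsto.liminf_eq
    have h3 : Tendsto (fun x : ℝ => ENNReal.ofReal (11 / 6 / (2 + x))) (𝓝 0)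
        (𝓝 (ENNReal.ofReal (11 / 6 / (2 + 0)))) := by
      apply ENNReal.tendsto_ofReal
      apply Tendsto.div tendsto_const_nhds
      · exact tendsto_const_nhds.add tendsto_id
      · norm_num
    have e : (11 / 6 / (2 + 0) : ℝ) = 11 / 12 := by norm_num
    rw [e] at h3
    exact h3.comp tendsto_comap
  rw [h1]
  refine liminf_le_liminf ?_
  · have h4 : ∀ᶠ x in 𝓝 (0 : ℝ), x < 1 := Iio_mem_nhds one_pos
    have h5 : ∀ᶠ δ : Set.Ioi (0 : ℝ) in comap Subtype.val (𝓝 (0 : ℝ)), δ.1 < 1 :=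
      tendsto_comap.eventually h4
    filter_upwards [h5] with δ hδ
    have hpos : (0 : ℝ) < 2 + δ.1 := by have := δ.2.out; linarith
    rw [ENNReal.ofReal_div_of_pos hpos]
    exact ENNReal.div_le_div_right (lowerValue_ge hw hδ) _

end Pool.Agent.MP_95edb1_lc
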