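import Pool.Agent.Lib.MP_95edb1_lc.Defs

set_option autoImplicit false

open MeasureTheory Filter Topology
open scoped ENNReal NNReal

namespace Pool.Agent.MP_95edb1_lc

namespace Network

variable {N : Network}

lemma Route.nonneg {p q : N.Pt} {c : ℝ} (h : N.Route p q c) : 0 ≤ c := by
  induction h with
  | nil p => exact le_rfl
  | cons e x y q c hx hy h ih => positivity

lemma Route.trans {p q r : N.Pt} {c d : ℝ} (h : N.Route p q c) (h' : N.Route q r d) :
    N.Route p r (c + d) := by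
  induction h with
  | nil p => simpa using h'
  | cons e x y q c hx hy h ih =>
    have := Route.cons e x y r (c + d) hx hy (ih h')
    rwa [← add_assoc] at this

lemma Route.single (e : N.E) (x y : ℝ) (hx : x ∈ Set.Icc (0 : ℝ) (N.len e))
    (hy : y ∈ Set.Icc (0 : ℝ) (N.len e)) : N.Route (N.arcPt e x) (N.arcPt e y) |x - y| := by
  have := Route.cons e x y (N.arcPt e y) 0 hx hy (Route.nil _)
  rwa [add_zero] at this

lemma Route.symm {p q : N.Pt} {c : ℝ} (h : N.Route p q c) : N.Route q p c := by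
  induction h with
  | nil p => exact Route.nil p
  | cons e x y q c hx hy h ih =>
    have := ih.trans (Route.single e y x hy hx)
    rwa [add_comm, abs_sub_comm] at this

noncomputable instance instPtMetric : PseudoEMetricSpace N.Pt where
  edist := N.pathDist
  edist_self p := by
    refine le_antisymm ?_ bot_le
    refine iInf₂_le_of_le 0 (Route.nil p) ?_
    simp
  edist_comm p q := by
    refine le_antisymm ?_ ?_
    · exact le_iInf₂ fun c hc => iInf₂_le c hc.symm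
    · exact le_iInf₂ fun c hc => iInf₂_le c hc.symm
  edist_triangle p q r := by
    refine ENNReal.le_of_forall_pos_le_add fun ε hε hfin => ?_
    have h1 : N.pathDist p q < ⊤ := lt_of_le_of_lt le_self_add hfin
    have h2 : N.pathDist q r < ⊤ := lt_of_le_of_lt le_add_self hfin
    have hε2 : (0 : ℝ≥0∞) < ε / 2 := by
      simp [hε.ne']
    have h1' : N.pathDist p q < N.pathDist p q + ε / 2 :=
      ENNReal.lt_add_right h1.ne hε2.ne'
    have h2' : N.pathDist q r < N.pathDist q r + ε / 2 :=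
      ENNReal.lt_add_right h2.ne hε2.ne'
    obtain ⟨c, hc1, hc2⟩ : ∃ c, ∃ _ : N.Route p q c,
        ENNReal.ofReal c < N.pathDist p q + ε / 2 := by
      rw [pathDist, iInf_lt_iff] at h1'
      obtain ⟨c, hc⟩ := h1'
      rw [iInf_lt_iff] at hc
      exact ⟨c, hc⟩
    obtain ⟨d, hd1, hd2⟩ : ∃ c, ∃ _ : N.Route q r c,
        ENNReal.ofReal c < N.pathDist q r + ε / 2 := by
      rw [pathDist, iInf_lt_iff] at h2'
      obtain ⟨c, hc⟩ := h2'
      rw [iInf_lt_iff] at hc
      exact ⟨c, hc⟩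
    calc N.pathDist p r ≤ ENNReal.ofReal (c + d) := iInf₂_le _ (hc1.trans hd1)
      _ = ENNReal.ofReal c + ENNReal.ofReal d := ENNReal.ofReal_add hc1.nonneg hd1.nonneg
      _ ≤ (N.pathDist p q + ε / 2) + (N.pathDist q r + ε / 2) := add_le_add hc2.le hd2.le
      _ = N.pathDist p q + N.pathDist q r + (ε / 2 + ε / 2) := by ring
      _ = N.pathDist p q + N.pathDist q r + ε := by rw [ENNReal.add_halves]

lemma edist_def (p q : N.Pt) : edist p q = N.pathDist p q := rfl

lemma arcPt_zero (e : N.E) : N.arcPt e 0 = N.node (N.src e) := by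
  simp [arcPt]

lemma arcPt_len (e : N.E) : N.arcPt e (N.len e) = N.node (N.tgt e) := by
  simp [arcPt, N.len_pos e]

lemma arcPt_of_nonpos (e : N.E) {x : ℝ} (hx : x ≤ 0) : N.arcPt e x = N.node (N.src e) := by
  simp [arcPt, hx.not_gt, hx]

lemma arcPt_of_ge (e : N.E) {x : ℝ} (hx : N.len e ≤ x) : N.arcPt e x = N.node (N.tgt e) := by
  have := N.len_pos e
  have h1 : ¬ x ≤ 0 := by linarith
  simp [arcPt, hx.not_gt, h1]

lemma arcPt_of_mem (e : N.E) {x : ℝ} (hx : x ∈ Set.Ioo (0 : ℝ) (N.len e)) :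
    N.arcPt e x = N.inner e ⟨x, hx⟩ := by
  simp [arcPt, hx.1, hx.2]

lemma edist_arcPt_le (e : N.E) {x y : ℝ} (hx : x ∈ Set.Icc (0 : ℝ) (N.len e))
    (hy : y ∈ Set.Icc (0 : ℝ) (N.len e)) :
    edist (N.arcPt e x) (N.arcPt e y) ≤ ENNReal.ofReal |x - y| :=
  iInf₂_le _ (Route.single e x y hx hy)

/-- A map that does not increase distances along any arc does not increase distances. -/
lemma edist_map_le {M : Type*} [PseudoEMetricSpace M] (φ : N.Pt → M)
    (h : ∀ e, ∀ x ∈ Set.Icc (0 : ℝ) (N.len e), ∀ y ∈ Set.Icc (0 : ℝ) (N.len e),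
      edist (φ (N.arcPt e x)) (φ (N.arcPt e y)) ≤ ENNReal.ofReal |x - y|) (p q : N.Pt) :
    edist (φ p) (φ q) ≤ N.pathDist p q := by
  refine le_iInf₂ fun c hc => ?_
  induction hc with
  | nil p => simp
  | cons e x y q c hx hy h' ih =>
    calc edist (φ (N.arcPt e x)) (φ q)
        ≤ edist (φ (N.arcPt e x)) (φ (N.arcPt e y)) + edist (φ (N.arcPt e y)) (φ q) :=
          edist_triangle _ _ _
      _ ≤ ENNReal.ofReal |x - y| + ENNReal.ofReal c := add_le_add (h e x hx y hy) ih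
      _ = ENNReal.ofReal (|x - y| + c) := (ENNReal.ofReal_add (abs_nonneg _) h'.nonneg).symm

end Network

/-- `f` does not increase distances on the set `s`. -/
def L1 {X : Type*} [PseudoEMetricSpace X] (f : ℝ → X) (s : Set ℝ) : Prop :=
  ∀ x ∈ s, ∀ y ∈ s, x ≤ y → edist (f x) (f y) ≤ ENNReal.ofReal (y - x)

section L1

variable {X : Type*} [PseudoEMetricSpace X] {f g : ℝ → X} {s t : Set ℝ} {a b c : ℝ}

lemma L1.mono (h : L1 f s) (hts : t ⊆ s) : L1 f t :=
  fun x hx y hy hxy => h x (hts hx) y (hts hy) hxy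

lemma L1.congr (h : L1 f s) (hfg : ∀ x ∈ s, g x = f x) : L1 g s := by
  intro x hx y hy hxy
  rw [hfg x hx, hfg y hy]
  exact h x hx y hy hxy

lemma L1.abs (h : L1 f s) {x y : ℝ} (hx : x ∈ s) (hy : y ∈ s) :
    edist (f x) (f y) ≤ ENNReal.ofReal |x - y| := by
  rcases le_total x y with hxy | hxy
  · rw [abs_sub_comm, abs_of_nonneg (by linarith)]
    exact h x hx y hy hxy
  · rw [abs_of_nonneg (by linarith), edist_comm]
    exact h y hy x hx hxy

lemma L1.union (h1 : L1 f (Set.Icc a b)) (h2 : L1 f (Set.Icc b c)) :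
    L1 f (Set.Icc a c) := by
  intro x hx y hy hxy
  rcases le_total y b with hyb | hyb
  · exact h1 x ⟨hx.1, by linarith⟩ y ⟨by linarith [hx.1], hyb⟩ hxy
  · rcases le_total x b with hxb | hxb
    · calc edist (f x) (f y) ≤ edist (f x) (f b) + edist (f b) (f y) := edist_triangle _ _ _
        _ ≤ ENNReal.ofReal (b - x) + ENNReal.ofReal (y - b) :=
          add_le_add (h1 x ⟨hx.1, hxb⟩ b ⟨by linarith [hx.1], le_rfl⟩ hxb)
            (h2 b ⟨le_rfl, by linarith [hy.2]⟩ y ⟨hyb, hy.2⟩ hyb)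
        _ = ENNReal.ofReal (y - x) := by
          rw [← ENNReal.ofReal_add (by linarith) (by linarith)]; congr 1; ring
    · exact h2 x ⟨hxb, hx.2⟩ y ⟨hyb, hy.2⟩ hxy

/-- Glueing along the multiples of `h`. -/
lemma L1.grid_step {h : ℝ} (hh : 0 < h)
    (H : ∀ n : ℤ, L1 f (Set.Icc ((n : ℝ) * h) (((n : ℝ) + 1) * h))) : L1 f Set.univ := by
  have key : ∀ (k : ℕ) (n : ℤ), L1 f (Set.Icc ((n : ℝ) * h) (((n : ℝ) + k) * h)) := by
    intro k
    induction k with
    | zero =>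
      intro n x hx y hy hxy
      have h1 : x = y := by
        have h2 := hx.1; have h3 := hy.2; simp only [Nat.cast_zero, add_zero] at h3; linarith
      rw [h1]; simp
    | succ k ih =>
      intro n
      have h1 := ih n
      have h2 := H (n + k)
      push_cast at h2 ⊢
      rw [← add_assoc]
      exact h1.union h2
  intro x _ y _ hxy
  have hxy' : x / h ≤ y / h := div_le_div_of_nonneg_right hxy hh.le
  have h1 := key (⌊y / h⌋ + 1 - ⌊x / h⌋).toNat ⌊x / h⌋
  have h2 : ((⌊y / h⌋ + 1 - ⌊x / h⌋).toNat : ℝ) = (⌊y / h⌋ : ℝ) + 1 - ⌊x / h⌋ := by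
    have h3 : (0 : ℤ) ≤ ⌊y / h⌋ + 1 - ⌊x / h⌋ := by
      have := Int.floor_le_floor hxy'; omega
    have h4 : ((⌊y / h⌋ + 1 - ⌊x / h⌋).toNat : ℤ) = ⌊y / h⌋ + 1 - ⌊x / h⌋ :=
      Int.toNat_of_nonneg h3
    have h5 : (((⌊y / h⌋ + 1 - ⌊x / h⌋).toNat : ℤ) : ℝ) = ((⌊y / h⌋ + 1 - ⌊x / h⌋ : ℤ) : ℝ) := by
      rw [h4]
    push_cast at h5
    rw [← h5]
  have h6 := Int.floor_le (x / h)
  have h7 := Int.lt_floor_add_one (y / h)
  rw [le_div_iff₀ hh] at h6
  rw [div_lt_iff₀ hh] at h7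
  have e : ((⌊x / h⌋ : ℝ) + ((⌊y / h⌋ + 1 - ⌊x / h⌋).toNat : ℝ)) * h = ((⌊y / h⌋ : ℝ) + 1) * h := by
    rw [h2]; ring
  rw [e] at h1
  exact h1 x ⟨h6, by linarith⟩ y ⟨by linarith, by linarith⟩ hxy

/-- Glueing along the integers. -/
lemma L1.grid (h : ∀ n : ℤ, L1 f (Set.Icc (n : ℝ) (n + 1))) : L1 f Set.univ := by
  apply L1.grid_step one_pos
  intro n
  simpa using h n

end L1

end Pool.Agent.MP_95edb1_lc
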