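import Pool.Agent.Lib.MP_95edb1_lc.Lower4

set_option autoImplicit false

/-!
# The random choices of the searcher

A symbol is a pair: a number below `16`, used to decide on an ambush, and a bit, used to choose
one of the two arcs of a circle.
-/

open MeasureTheory Filter Topology ProbabilityTheory
open scoped ENNReal NNReal

namespace Pool.Agent.MP_95edb1_lc

/-- the states of the searcher -/
inductive St
  | z | a | b | c | d | o | l | r | f | u | v
  deriving DecidableEq

instance : Fintype St :=
  ⟨{St.z, St.a, St.b, St.c, St.d, St.o, St.l, St.r, St.f, St.u, St.v}, by intro x; cases x <;> decide⟩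

lemma sum_St (F : St → ℝ) : ∑ x, F x = F St.z + F St.a + F St.b + F St.c + F St.d + F St.o +
    F St.l + F St.r + F St.f + F St.u + F St.v := by
  have : (Finset.univ : Finset St) =
      {St.z, St.a, St.b, St.c, St.d, St.o, St.l, St.r, St.f, St.u, St.v} := rfl
  rw [this]
  rw [Finset.sum_insert (by decide), Finset.sum_insert (by decide), Finset.sum_insert (by decide),
    Finset.sum_insert (by decide), Finset.sum_insert (by decide), Finset.sum_insert (by decide),
    Finset.sum_insert (by decide), Finset.sum_insert (by decide), Finset.sum_insert (by decide),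
    Finset.sum_insert (by decide), Finset.sum_singleton]
  ring

/-- the port at which the searcher is -/
def port : St → ℕ
  | St.z => 2
  | St.a => 1
  | St.b => 1
  | St.c => 3
  | St.d => 3
  | St.o => 0
  | St.l => 2
  | St.r => 2
  | St.f => 4
  | St.u => 1
  | St.v => 3

/-- the next state -/
def nxt : St → Fin 16 → St
  | St.z, k => if k < 8 then St.a else St.c
  | St.a, k => if k = 0 then St.u else St.o
  | St.b, _ => St.r
  | St.c, k => if k = 0 then St.v else St.f
  | St.d, _ => St.l
  | St.o, _ => St.b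
  | St.l, _ => St.a
  | St.r, _ => St.c
  | St.f, _ => St.d
  | St.u, _ => St.a
  | St.v, _ => St.c

/-- symbols -/
abbrev Sym : Type := Fin 16 × Bool

/-- the state at time `n` -/
def traj (ω : ℕ → Sym) : ℕ → St
  | 0 => St.z
  | n + 1 => nxt (traj ω n) (ω n).1

lemma traj_congr {ω ω' : ℕ → Sym} (n : ℕ) (h : ∀ i < n, ω i = ω' i) : traj ω n = traj ω' n := by
  induction n with
  | zero => rfl
  | succ n ih =>
    have h1 := ih fun i hi => h i (by omega)
    show nxt (traj ω n) (ω n).1 = nxt (traj ω' n) (ω' n).1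
    rw [h1, h n (by omega)]

instance : IsProbabilityMeasure (unif Sym) := unif_prob Sym

/-- the law of the sequence of symbols -/
noncomputable def PS : Measure (ℕ → Sym) := Measure.infinitePi fun _ => unif Sym

instance : IsProbabilityMeasure PS := by unfold PS; infer_instance

lemma unif_singleton (s : Sym) : unif Sym {s} = 1 / 32 := by
  unfold unif
  rw [Measure.smul_apply, Measure.count_singleton, smul_eq_mul, mul_one]
  have : Fintype.card Sym = 32 := by rfl
  rw [this]
  simp

/-- membership in `E` depends on the first `t` symbols only -/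
def DepLt (t : ℕ) (E : Set (ℕ → Sym)) : Prop :=
  ∀ ω ω' : ℕ → Sym, (∀ i < t, ω i = ω' i) → (ω ∈ E ↔ ω' ∈ E)

lemma DepLt.eq_preimage {t : ℕ} {E : Set (ℕ → Sym)} (hE : DepLt t E) :
    E = (fun (ω : ℕ → Sym) (i : Finset.range t) => ω i) ⁻¹'
      ((fun (ω : ℕ → Sym) (i : Finset.range t) => ω i) '' E) := by
  ext ω
  constructor
  · intro h
    exact ⟨ω, h, rfl⟩
  · rintro ⟨ω', h', he⟩
    apply (hE ω' ω _).1 h'
    intro i hi
    exact congrFun he ⟨i, Finset.mem_range.2 hi⟩

lemma DepLt.measurableSet {t : ℕ} {E : Set (ℕ → Sym)} (hE : DepLt t E) : MeasurableSet E := by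
  rw [hE.eq_preimage]
  have h1 : Measurable (fun (ω : ℕ → Sym) (i : Finset.range t) => ω i) := by fun_prop
  exact h1 (Set.toFinite _).measurableSet

lemma PS_indep {t : ℕ} {E : Set (ℕ → Sym)} (hE : DepLt t E) (s : Sym) :
    PS (E ∩ {ω | ω t = s}) = PS E * (1 / 32) := by
  have h1 : iIndepFun (fun (i : ℕ) (ω : ℕ → Sym) => ω i) PS :=
    iIndepFun_infinitePi (X := fun _ s => s) (fun _ => measurable_id)
  have h2 := h1.indepFun_finset (Finset.range t) {t} (by simp) (fun i => measurable_pi_apply i)
  have h3 := h2.measure_inter_preimage_eq_mul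
    ((fun (ω : ℕ → Sym) (i : Finset.range t) => ω i) '' E)
    {f : ({t} : Finset ℕ) → Sym | f ⟨t, Finset.mem_singleton_self t⟩ = s}
    (Set.toFinite _).measurableSet (Set.toFinite _).measurableSet
  rw [← hE.eq_preimage] at h3
  have h4 : (fun (ω : ℕ → Sym) (i : ({t} : Finset ℕ)) => ω i) ⁻¹'
      {f : ({t} : Finset ℕ) → Sym | f ⟨t, Finset.mem_singleton_self t⟩ = s} = {ω | ω t = s} := rfl
  rw [h4] at h3
  rw [h3]
  congr 1
  have h5 : {ω : ℕ → Sym | ω t = s} = (fun ω : ℕ → Sym => ω t) ⁻¹' {s} := rfl
  have h6 : Measurable (fun ω : ℕ → Sym => ω t) := measurable_pi_apply t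
  rw [h5, ← Measure.map_apply h6 (measurableSet_singleton s)]
  unfold PS
  rw [Measure.infinitePi_map_eval, unif_singleton]

section Chain

-- `Surv n x s`: a searcher that is in state `x` at time `n` and reads `s` does not meet the hider
-- during the time interval `[n, n + 1]`
variable (Surv : ℕ → St → Sym → Prop)

/-- the searcher does not meet the hider up to time `n` -/
def Alive (n : ℕ) : Set (ℕ → Sym) := {ω | ∀ m < n, Surv m (traj ω m) (ω m)}

/-- the searcher is in state `x` at time `n` and has not met the hider -/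
def Ev (n : ℕ) (x : St) : Set (ℕ → Sym) := {ω | traj ω n = x ∧ ω ∈ Alive Surv n}

lemma alive_dep (n : ℕ) : DepLt n (Alive Surv n) := by
  have : ∀ ω ω' : ℕ → Sym, (∀ i < n, ω i = ω' i) → ω ∈ Alive Surv n → ω' ∈ Alive Surv n := by
    intro ω ω' h h1 m hm
    have := h1 m hm
    rwa [traj_congr m (fun i hi => h i (by omega)), h m hm] at this
  exact fun ω ω' h => ⟨this ω ω' h, this ω' ω fun i hi => (h i hi).symm⟩

lemma ev_dep (n : ℕ) (x : St) : DepLt n (Ev Surv n x) := by
  intro ω ω' h
  show (traj ω n = x ∧ ω ∈ Alive Surv n) ↔ (traj ω' n = x ∧ ω' ∈ Alive Surv n)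
  rw [traj_congr n h, alive_dep Surv n ω ω' h]

/-- probability of `Ev` -/
noncomputable def bb (n : ℕ) (x : St) : ℝ := (PS (Ev Surv n x)).toReal

lemma bb_nonneg (n : ℕ) (x : St) : 0 ≤ bb Surv n x := ENNReal.toReal_nonneg

open Classical in
/-- survival indicator -/
noncomputable def sv (n : ℕ) (x : St) (s : Sym) : ℝ := if Surv n x s then 1 else 0

lemma sv_nonneg (n : ℕ) (x : St) (s : Sym) : 0 ≤ sv Surv n x s := by
  unfold sv; split_ifs <;> norm_num

lemma sv_le_one (n : ℕ) (x : St) (s : Sym) : sv Surv n x s ≤ 1 := by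
  unfold sv; split_ifs <;> norm_num

open Classical in
lemma bb_succ_le (n : ℕ) (y : St) : bb Surv (n + 1) y ≤
    ∑ x, ∑ s : Sym, (if nxt x s.1 = y then sv Surv n x s else 0) * (bb Surv n x * (1 / 32)) := by
  have h1 : Ev Surv (n + 1) y ⊆ ⋃ p ∈ (Finset.univ.filter fun p : St × Sym =>
      nxt p.1 p.2.1 = y ∧ Surv n p.1 p.2), (Ev Surv n p.1 ∩ {ω | ω n = p.2}) := by
    intro ω hω
    obtain ⟨h1, h2⟩ := hω
    rw [Set.mem_iUnion₂]
    refine ⟨(traj ω n, ω n), ?_, ?_⟩
    · rw [Finset.mem_filter]
      exact ⟨Finset.mem_univ _, h1, h2 n (by omega)⟩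
    · exact ⟨⟨rfl, fun m hm => h2 m (by omega)⟩, rfl⟩
  have h2 : PS (Ev Surv (n + 1) y) ≤ ∑ p ∈ (Finset.univ.filter fun p : St × Sym =>
      nxt p.1 p.2.1 = y ∧ Surv n p.1 p.2), PS (Ev Surv n p.1) * (1 / 32) := by
    refine (measure_mono h1).trans ((measure_biUnion_finset_le _ _).trans (le_of_eq ?_))
    apply Finset.sum_congr rfl
    intro p _
    exact PS_indep (ev_dep Surv n p.1) p.2
  have h3 : bb Surv (n + 1) y ≤ ∑ p ∈ (Finset.univ.filter fun p : St × Sym =>
      nxt p.1 p.2.1 = y ∧ Surv n p.1 p.2), bb Surv n p.1 * (1 / 32) := by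
    unfold bb
    refine (ENNReal.toReal_mono ?_ h2).trans (le_of_eq ?_)
    · apply ENNReal.sum_ne_top.2
      intro p _
      exact ENNReal.mul_ne_top (measure_ne_top _ _) (by simp)
    · rw [ENNReal.toReal_sum]
      · apply Finset.sum_congr rfl
        intro p _
        rw [ENNReal.toReal_mul]
        simp
      · intro p _
        exact ENNReal.mul_ne_top (measure_ne_top _ _) (by simp)
  refine h3.trans (le_of_eq ?_)
  rw [Finset.sum_filter, Fintype.sum_prod_type]
  apply Finset.sum_congr rfl
  intro x _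
  apply Finset.sum_congr rfl
  intro s _
  unfold sv
  by_cases h4 : nxt x s.1 = y <;> by_cases h5 : Surv n x s <;> simp [h4, h5]

/-- one step, tested against a nonnegative function -/
lemma step_le (n : ℕ) (h : St → ℝ) (hh : ∀ y, 0 ≤ h y) :
    ∑ y, bb Surv (n + 1) y * h y ≤
      ∑ x, bb Surv n x * ((1 / 32) * ∑ s : Sym, sv Surv n x s * h (nxt x s.1)) := by
  classical
  calc ∑ y, bb Surv (n + 1) y * h y
      ≤ ∑ y, (∑ x, ∑ s : Sym, (if nxt x s.1 = y then sv Surv n x s else 0) *
          (bb Surv n x * (1 / 32))) * h y :=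
        Finset.sum_le_sum fun y _ => mul_le_mul_of_nonneg_right (bb_succ_le Surv n y) (hh y)
    _ = ∑ y, ∑ x, ∑ s : Sym, (if nxt x s.1 = y then sv Surv n x s else 0) *
          (bb Surv n x * (1 / 32)) * h y := by
        apply Finset.sum_congr rfl
        intro y _
        rw [Finset.sum_mul]
        apply Finset.sum_congr rfl
        intro x _
        rw [Finset.sum_mul]
    _ = ∑ x, ∑ s : Sym, ∑ y, (if nxt x s.1 = y then sv Surv n x s else 0) *
          (bb Surv n x * (1 / 32)) * h y := by
        rw [Finset.sum_comm]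
        apply Finset.sum_congr rfl
        intro x _
        rw [Finset.sum_comm]
    _ = ∑ x, bb Surv n x * ((1 / 32) * ∑ s : Sym, sv Surv n x s * h (nxt x s.1)) := by
        apply Finset.sum_congr rfl
        intro x _
        rw [Finset.mul_sum, Finset.mul_sum]
        apply Finset.sum_congr rfl
        intro s _
        rw [Finset.sum_eq_single (nxt x s.1)]
        · simp; ring
        · intro y _ hy
          rw [if_neg (Ne.symm hy)]; ring
        · intro hn
          exact absurd (Finset.mem_univ _) hn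

end Chain

end Pool.Agent.MP_95edb1_lc
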