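import Pool.Agent.Lib.MP_95edb1_lc.Upper1
import Pool.Agent.Lib.MP_95edb1_lc.Cert

set_option autoImplicit false

/-!
# The potential argument
-/

open MeasureTheory Filter Topology ProbabilityTheory
open scoped ENNReal NNReal

namespace Pool.Agent.MP_95edb1_lc

open Cert

/-- one step, with the hider going from cell `c` to cell `c'` -/
noncomputable def Kop (c c' : ℕ) (h : St → ℝ) (x : St) : ℝ :=
  (1 / 32) * ∑ k : Fin 16, (g (port x) c (port (nxt x k)) c' : ℝ) * h (nxt x k)

lemma Kop_nonneg (c c' : ℕ) (h : St → ℝ) (hh : ∀ y, 0 ≤ h y) (x : St) : 0 ≤ Kop c c' h x := by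
  unfold Kop
  apply mul_nonneg (by norm_num)
  exact Finset.sum_nonneg fun k _ => mul_nonneg (Nat.cast_nonneg _) (hh _)

lemma Kop_z (c c' : ℕ) (h : St → ℝ) : Kop c c' h St.z =
    1 / 4 * ((g 2 c 1 c' : ℝ) * h St.a + (g 2 c 3 c' : ℝ) * h St.c) := by
  unfold Kop
  simp [Fin.sum_univ_succ, nxt, port, Fin.lt_def]
  ring

lemma Kop_a (c c' : ℕ) (h : St → ℝ) : Kop c c' h St.a =
    1 / 32 * ((g 1 c 1 c' : ℝ) * h St.u + 15 * ((g 1 c 0 c' : ℝ) * h St.o)) := by
  unfold Kop
  rw [Fin.sum_univ_succ]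
  have h0 : nxt St.a 0 = St.u := rfl
  have h1 : ∀ k : Fin 15, nxt St.a k.succ = St.o := by decide
  simp only [h0, h1, port]
  rw [Finset.sum_const, Finset.card_univ, Fintype.card_fin, nsmul_eq_mul]
  push_cast
  ring

lemma Kop_c (c c' : ℕ) (h : St → ℝ) : Kop c c' h St.c =
    1 / 32 * ((g 3 c 3 c' : ℝ) * h St.v + 15 * ((g 3 c 4 c' : ℝ) * h St.f)) := by
  unfold Kop
  rw [Fin.sum_univ_succ]
  have h0 : nxt St.c 0 = St.v := rfl
  have h1 : ∀ k : Fin 15, nxt St.c k.succ = St.f := by decide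
  simp only [h0, h1, port]
  rw [Finset.sum_const, Finset.card_univ, Fintype.card_fin, nsmul_eq_mul]
  push_cast
  ring

lemma Kop_const (c c' : ℕ) (h : St → ℝ) (x y : St) (hxy : ∀ k, nxt x k = y) :
    Kop c c' h x = 1 / 2 * ((g (port x) c (port y) c' : ℝ) * h y) := by
  unfold Kop
  simp only [hxy]
  rw [Finset.sum_const, Finset.card_univ, Fintype.card_fin, nsmul_eq_mul]
  push_cast
  ring

/-- the potential given by vector `j` of region `X` -/
noncomputable def pot (X j : ℕ) : St → ℝ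
  | St.a => (ent X j 0 : ℝ) / 8192
  | St.b => (ent X j 1 : ℝ) / 8192
  | St.c => (ent X j 2 : ℝ) / 8192
  | St.d => (ent X j 3 : ℝ) / 8192
  | _ => 0

lemma pot_nonneg (X j : ℕ) (x : St) : 0 ≤ pot X j x := by
  cases x <;> simp only [pot] <;> positivity

/-- the states at odd times -/
def odd : St → Bool
  | St.a => true
  | St.b => true
  | St.c => true
  | St.d => true
  | _ => false

lemma odd_nxt (x : St) (k : Fin 16) : odd (nxt x k) = !(odd x) := by
  cases x <;> simp only [nxt, odd] <;> (try split_ifs) <;> rfl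

lemma odd_traj (ω : ℕ → Sym) (n : ℕ) : odd (traj ω n) = (n % 2 == 1) := by
  induction n with
  | zero => rfl
  | succ n ih =>
    show odd (nxt (traj ω n) (ω n).1) = _
    rw [odd_nxt, ih]
    rcases Nat.mod_two_eq_zero_or_one n with h | h
    · have : (n + 1) % 2 = 1 := by omega
      rw [h, this]; rfl
    · have : (n + 1) % 2 = 0 := by omega
      rw [h, this]; rfl

section

variable (Surv : ℕ → St → Sym → Prop)

lemma bb_odd {n : ℕ} (hn : n % 2 = 1) {x : St} (hx : odd x = false) : bb Surv n x = 0 := by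
  have : Ev Surv n x = ∅ := by
    apply Set.eq_empty_of_forall_notMem
    rintro ω ⟨h1, _⟩
    have h2 := odd_traj ω n
    rw [h1, hx, hn] at h2
    exact absurd h2 (by decide)
  unfold bb
  rw [this]; simp

/-- total mass -/
noncomputable def tot (n : ℕ) : ℝ := ∑ x, bb Surv n x

lemma tot_nonneg (n : ℕ) : 0 ≤ tot Surv n := Finset.sum_nonneg fun _ _ => bb_nonneg Surv _ _

lemma tot_eq (n : ℕ) : (PS (Alive Surv n)).toReal ≤ tot Surv n := by
  have h1 : Alive Surv n ⊆ ⋃ x ∈ (Finset.univ : Finset St), Ev Surv n x := by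
    intro ω hω
    rw [Set.mem_iUnion₂]
    exact ⟨traj ω n, Finset.mem_univ _, rfl, hω⟩
  have h2 : PS (Alive Surv n) ≤ ∑ x, PS (Ev Surv n x) :=
    (measure_mono h1).trans (measure_biUnion_finset_le _ _)
  unfold tot bb
  refine (ENNReal.toReal_mono ?_ h2).trans (le_of_eq ?_)
  · exact ENNReal.sum_ne_top.2 fun x _ => measure_ne_top _ _
  · exact ENNReal.toReal_sum fun x _ => measure_ne_top _ _

lemma bb_zero_of_ne {x : St} (hx : x ≠ St.z) : bb Surv 0 x = 0 := by
  have : Ev Surv 0 x = ∅ := by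
    apply Set.eq_empty_of_forall_notMem
    rintro ω ⟨h1, _⟩
    exact hx h1.symm
  unfold bb
  rw [this]; simp

lemma bb_le_one (n : ℕ) (x : St) : bb Surv n x ≤ 1 := by
  unfold bb
  have : PS (Ev Surv n x) ≤ 1 := prob_le_one
  exact (ENNReal.toReal_mono (by simp) this).trans (le_of_eq (by simp))

variable (c : ℕ → ℕ) (hc4 : ∀ n, c n < 4)
  (hc : ∀ n x k, sv Surv n x (k, true) + sv Surv n x (k, false) ≤
    (g (port x) (c n) (port (nxt x k)) (c (n + 1)) : ℝ))

include hc

lemma step_le' (n : ℕ) (h : St → ℝ) (hh : ∀ y, 0 ≤ h y) :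
    ∑ y, bb Surv (n + 1) y * h y ≤ ∑ x, bb Surv n x * Kop (c n) (c (n + 1)) h x := by
  refine (step_le Surv n h hh).trans ?_
  apply Finset.sum_le_sum
  intro x _
  apply mul_le_mul_of_nonneg_left _ (bb_nonneg Surv n x)
  unfold Kop
  apply mul_le_mul_of_nonneg_left _ (by norm_num)
  rw [Fintype.sum_prod_type]
  apply Finset.sum_le_sum
  intro k _
  rw [Fintype.sum_bool]
  have := hc n x k
  have h2 := hh (nxt x k)
  calc sv Surv n x (k, true) * h (nxt x k) + sv Surv n x (k, false) * h (nxt x k)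
      = (sv Surv n x (k, true) + sv Surv n x (k, false)) * h (nxt x k) := by ring
    _ ≤ _ := mul_le_mul_of_nonneg_right this h2

lemma two_steps (n : ℕ) (h : St → ℝ) (hh : ∀ y, 0 ≤ h y) :
    tot Surv n + tot Surv (n + 1) + ∑ y, bb Surv (n + 2) y * h y ≤
      ∑ x, bb Surv n x *
        (1 + Kop (c n) (c (n + 1)) (fun y => 1 + Kop (c (n + 1)) (c (n + 2)) h y) x) := by
  have h1 := step_le' Surv c hc (n + 1) h hh
  have h2 := step_le' Surv c hc n (fun y => 1 + Kop (c (n + 1)) (c (n + 2)) h y)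
    (fun y => by have := Kop_nonneg (c (n + 1)) (c (n + 2)) h hh y; linarith)
  have h3 : ∑ y, bb Surv (n + 1) y * (1 + Kop (c (n + 1)) (c (n + 2)) h y) =
      tot Surv (n + 1) + ∑ y, bb Surv (n + 1) y * Kop (c (n + 1)) (c (n + 2)) h y := by
    unfold tot
    rw [← Finset.sum_add_distrib]
    apply Finset.sum_congr rfl
    intro y _
    ring
  have h4 : ∑ x, bb Surv n x *
        (1 + Kop (c n) (c (n + 1)) (fun y => 1 + Kop (c (n + 1)) (c (n + 2)) h y) x) =
      tot Surv n + ∑ x, bb Surv n x *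
        Kop (c n) (c (n + 1)) (fun y => 1 + Kop (c (n + 1)) (c (n + 2)) h y) x := by
    unfold tot
    rw [← Finset.sum_add_distrib]
    apply Finset.sum_congr rfl
    intro y _
    ring
  rw [h3] at h2
  rw [h4]
  have h5 : n + 1 + 1 = n + 2 := rfl
  rw [h5] at h1
  linarith

omit hc in
lemma sum_odd {n : ℕ} (hn : n % 2 = 1) (F : St → ℝ) : ∑ x, bb Surv n x * F x =
    bb Surv n St.a * F St.a + bb Surv n St.b * F St.b + bb Surv n St.c * F St.c +
      bb Surv n St.d * F St.d := by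
  rw [sum_St]
  rw [bb_odd Surv hn (x := St.z) rfl, bb_odd Surv hn (x := St.o) rfl,
    bb_odd Surv hn (x := St.l) rfl, bb_odd Surv hn (x := St.r) rfl,
    bb_odd Surv hn (x := St.f) rfl, bb_odd Surv hn (x := St.u) rfl,
    bb_odd Surv hn (x := St.v) rfl]
  ring

omit hc in
lemma two_a (c c' c'' X j : ℕ) : 1 + Kop c c' (fun y => 1 + Kop c' c'' (pot X j) y) St.a =
    (va c c' c'' (ent X j 0) (ent X j 1) : ℝ) / 524288 := by
  rw [Kop_a, Kop_const c' c'' (pot X j) St.u St.a (fun _ => rfl),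
    Kop_const c' c'' (pot X j) St.o St.b (fun _ => rfl)]
  simp only [port, pot, va]
  push_cast
  ring

omit hc in
lemma two_b (c c' c'' X j : ℕ) : 1 + Kop c c' (fun y => 1 + Kop c' c'' (pot X j) y) St.b =
    (vb c c' c'' (ent X j 2) : ℝ) / 524288 := by
  rw [Kop_const c c' _ St.b St.r (fun _ => rfl),
    Kop_const c' c'' (pot X j) St.r St.c (fun _ => rfl)]
  simp only [port, pot, vb]
  push_cast
  ring

omit hc in
lemma two_c (c c' c'' X j : ℕ) : 1 + Kop c c' (fun y => 1 + Kop c' c'' (pot X j) y) St.c =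
    (vc c c' c'' (ent X j 2) (ent X j 3) : ℝ) / 524288 := by
  rw [Kop_c, Kop_const c' c'' (pot X j) St.v St.c (fun _ => rfl),
    Kop_const c' c'' (pot X j) St.f St.d (fun _ => rfl)]
  simp only [port, pot, vc]
  push_cast
  ring

omit hc in
lemma two_d (c c' c'' X j : ℕ) : 1 + Kop c c' (fun y => 1 + Kop c' c'' (pot X j) y) St.d =
    (vd c c' c'' (ent X j 0) : ℝ) / 524288 := by
  rw [Kop_const c c' _ St.d St.l (fun _ => rfl),
    Kop_const c' c'' (pot X j) St.l St.a (fun _ => rfl)]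
  simp only [port, pot, vd]
  push_cast
  ring

include hc4

/-- the invariant -/
lemma invariant (k : ℕ) : ∀ j < num (reg (c (2 * k + 1))),
    ∑ m ∈ Finset.range (2 * k + 1), tot Surv m +
      ∑ x, bb Surv (2 * k + 1) x * pot (reg (c (2 * k + 1))) j x ≤ 240234 / 32768 := by
  induction k with
  | zero =>
    intro j hj
    simp only [Nat.mul_zero, Nat.zero_add] at hj ⊢
    have h1 := step_le' Surv c hc 0 (pot (reg (c 1)) j) (pot_nonneg _ _)
    rw [Finset.sum_range_one]
    have h2 : tot Surv 0 = bb Surv 0 St.z := by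
      unfold tot
      rw [Finset.sum_eq_single St.z]
      · intro x _ hx; exact bb_zero_of_ne Surv hx
      · intro hn; exact absurd (Finset.mem_univ _) hn
    have h3 : ∑ x, bb Surv 0 x * Kop (c 0) (c (0 + 1)) (pot (reg (c 1)) j) x =
        bb Surv 0 St.z * Kop (c 0) (c 1) (pot (reg (c 1)) j) St.z := by
      rw [Finset.sum_eq_single St.z]
      · intro x _ hx; rw [bb_zero_of_ne Surv hx]; ring
      · intro hn; exact absurd (Finset.mem_univ _) hn
    rw [h3] at h1
    have h4 := initial (hc4 0) (hc4 1) hj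
    have h5 : (32768 + (g 2 (c 0) 1 (c 1) : ℝ) * ent (reg (c 1)) j 0 +
        (g 2 (c 0) 3 (c 1) : ℝ) * ent (reg (c 1)) j 2) ≤ 240234 := by exact_mod_cast h4
    have h6 : 1 + Kop (c 0) (c 1) (pot (reg (c 1)) j) St.z ≤ 240234 / 32768 := by
      rw [Kop_z]
      simp only [pot]
      linarith
    have h7 := bb_le_one Surv 0 St.z
    have h8 := bb_nonneg Surv 0 St.z
    have h9 : 0 ≤ Kop (c 0) (c 1) (pot (reg (c 1)) j) St.z := Kop_nonneg _ _ _ (pot_nonneg _ _) _
    rw [h2]
    have h10 : bb Surv 0 St.z * Kop (c 0) (c 1) (pot (reg (c 1)) j) St.z ≤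
        Kop (c 0) (c 1) (pot (reg (c 1)) j) St.z := by nlinarith
    linarith
  | succ k ih =>
    intro j hj
    have e1 : 2 * (k + 1) + 1 = 2 * k + 1 + 2 := by ring
    rw [e1] at hj ⊢
    set n := 2 * k + 1 with hn
    have hn1 : n % 2 = 1 := by omega
    have e2 : ∑ m ∈ Finset.range (n + 2), tot Surv m =
        ∑ m ∈ Finset.range n, tot Surv m + tot Surv n + tot Surv (n + 1) := by
      rw [Finset.sum_range_succ, Finset.sum_range_succ]
    rw [e2]
    have h1 := two_steps Surv c hc n (pot (reg (c (n + 2))) j) (pot_nonneg _ _)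
    rw [sum_odd Surv hn1, two_a, two_b, two_c, two_d] at h1
    obtain ⟨l, i, hl, hi, ha, hb, hcc, hd⟩ := sound (hc4 n) (hc4 (n + 1)) (hc4 (n + 2)) hj
    have i0 := ih (i 0) (hi 0)
    have i1 := ih (i 1) (hi 1)
    have i2 := ih (i 2) (hi 2)
    have i3 := ih (i 3) (hi 3)
    rw [sum_odd Surv hn1] at i0 i1 i2 i3
    simp only [pot] at i0 i1 i2 i3
    set X := reg (c n)
    have hl' : ((l 0 : ℝ) + l 1 + l 2 + l 3) = 65536 := by exact_mod_cast hl
    have ha' : (65536 * (va (c n) (c (n + 1)) (c (n + 2)) (ent (reg (c (n + 2))) j 0)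
        (ent (reg (c (n + 2))) j 1) : ℝ)) ≤ 64 * (l 0 * ent X (i 0) 0 + l 1 * ent X (i 1) 0 +
          l 2 * ent X (i 2) 0 + l 3 * ent X (i 3) 0) := by exact_mod_cast ha
    have hb' : (65536 * (vb (c n) (c (n + 1)) (c (n + 2)) (ent (reg (c (n + 2))) j 2) : ℝ)) ≤
        64 * (l 0 * ent X (i 0) 1 + l 1 * ent X (i 1) 1 +
          l 2 * ent X (i 2) 1 + l 3 * ent X (i 3) 1) := by exact_mod_cast hb
    have hc' : (65536 * (vc (c n) (c (n + 1)) (c (n + 2)) (ent (reg (c (n + 2))) j 2)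
        (ent (reg (c (n + 2))) j 3) : ℝ)) ≤ 64 * (l 0 * ent X (i 0) 2 + l 1 * ent X (i 1) 2 +
          l 2 * ent X (i 2) 2 + l 3 * ent X (i 3) 2) := by exact_mod_cast hcc
    have hd' : (65536 * (vd (c n) (c (n + 1)) (c (n + 2)) (ent (reg (c (n + 2))) j 0) : ℝ)) ≤
        64 * (l 0 * ent X (i 0) 3 + l 1 * ent X (i 1) 3 +
          l 2 * ent X (i 2) 3 + l 3 * ent X (i 3) 3) := by exact_mod_cast hd
    have n0 := bb_nonneg Surv n St.a
    have n1 := bb_nonneg Surv n St.b
    have n2 := bb_nonneg Surv n St.c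
    have n3 := bb_nonneg Surv n St.d
    have p0 := mul_le_mul_of_nonneg_left ha' n0
    have p1 := mul_le_mul_of_nonneg_left hb' n1
    have p2 := mul_le_mul_of_nonneg_left hc' n2
    have p3 := mul_le_mul_of_nonneg_left hd' n3
    have q0 := mul_le_mul_of_nonneg_left i0 (Nat.cast_nonneg (α := ℝ) (l 0))
    have q1 := mul_le_mul_of_nonneg_left i1 (Nat.cast_nonneg (α := ℝ) (l 1))
    have q2 := mul_le_mul_of_nonneg_left i2 (Nat.cast_nonneg (α := ℝ) (l 2))
    have q3 := mul_le_mul_of_nonneg_left i3 (Nat.cast_nonneg (α := ℝ) (l 3))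
    have hS : (∑ m ∈ Finset.range n, tot Surv m) * ((l 0 : ℝ) + l 1 + l 2 + l 3) =
        (∑ m ∈ Finset.range n, tot Surv m) * 65536 := by rw [hl']
    have hV : (240234 / 32768 : ℝ) * ((l 0 : ℝ) + l 1 + l 2 + l 3) =
        (240234 / 32768 : ℝ) * 65536 := by rw [hl']
    linarith

/-- the expected number of steps survived is at most `240234 / 32768` -/
lemma sum_tot_le (T : ℕ) : ∑ m ∈ Finset.range T, tot Surv m ≤ 240234 / 32768 := by
  have h1 : ∑ m ∈ Finset.range T, tot Surv m ≤ ∑ m ∈ Finset.range (2 * T + 1), tot Surv m :=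
    Finset.sum_le_sum_of_subset_of_nonneg (Finset.range_subset_range.2 (by omega))
      fun _ _ _ => tot_nonneg Surv _
  have h0 : 0 < num (reg (c (2 * T + 1))) := by
    have : ∀ X, 0 < num X := by
      intro X; rcases X with _ | _ | X <;> simp [num]
    exact this _
  have h2 := invariant Surv c hc4 hc T 0 h0
  have h3 : 0 ≤ ∑ x, bb Surv (2 * T + 1) x * pot (reg (c (2 * T + 1))) 0 x :=
    Finset.sum_nonneg fun x _ => mul_nonneg (bb_nonneg Surv _ _) (pot_nonneg _ _ _)
  linarith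

end

end Pool.Agent.MP_95edb1_lc
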