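import Pool.Agent.Lib.MP_95edb1_lc.Chain
import Pool.Agent.Lib.MP_95edb1_lc.Upper2

set_option autoImplicit false

/-!
# The searcher's mixed strategy on the chain of four circles
-/

open MeasureTheory Filter Topology ProbabilityTheory
open scoped ENNReal NNReal

namespace Pool.Agent.MP_95edb1_lc

open Cert

lemma port_nxt : ∀ (x : St) (k : Fin 16),
    (port (nxt x k) = port x + 1 ∨ port x = port (nxt x k) + 1) ∨
      (port (nxt x k) = port x ∧ (port x = 1 ∨ port x = 3)) := by decide

lemma port_le : ∀ x : St, port x ≤ 4 := by decide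

/-- the coordinate of the searcher at time `n + r` -/
noncomputable def crd (x y : St) (r : ℝ) : ℝ := (port x : ℝ) + ((port y : ℝ) - port x) * r

lemma crd_mem (x y : St) {r : ℝ} (hr : r ∈ Set.Icc (0 : ℝ) 1) :
    crd x y r ∈ Set.Icc (0 : ℝ) 4 := by
  have h1 : (port x : ℝ) ≤ 4 := by exact_mod_cast port_le x
  have h2 : (port y : ℝ) ≤ 4 := by exact_mod_cast port_le y
  have h3 : (0 : ℝ) ≤ port x := Nat.cast_nonneg _
  have h4 : (0 : ℝ) ≤ port y := Nat.cast_nonneg _
  have hr1 := hr.1
  have hr2 := hr.2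
  unfold crd
  constructor <;> nlinarith

lemma crd_zero (x y : St) : crd x y 0 = port x := by simp [crd]

lemma crd_one (x y : St) : crd x y 1 = port y := by simp [crd]

lemma slope_le (x : St) (k : Fin 16) : |(port (nxt x k) : ℝ) - port x| ≤ 1 := by
  rcases port_nxt x k with (h | h) | ⟨h, _⟩
  · rw [h]; simp
  · rw [h]; simp
  · rw [h]; simp

/-- the searcher's path -/
noncomputable def spath (ω : ℕ → Sym) (t : ℝ) : chain.Pt :=
  cpt (ω ⌊t⌋₊).2 (crd (traj ω ⌊t⌋₊) (traj ω (⌊t⌋₊ + 1)) (max t 0 - ⌊t⌋₊))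

lemma spath_eq (ω : ℕ → Sym) (n : ℕ) {t : ℝ} (ht : t ∈ Set.Icc (n : ℝ) (n + 1)) :
    spath ω t = cpt (ω n).2 (crd (traj ω n) (traj ω (n + 1)) (t - n)) := by
  have hn : (0 : ℝ) ≤ n := Nat.cast_nonneg n
  have h0 : max t 0 = t := max_eq_left (by linarith [ht.1])
  unfold spath
  rcases lt_or_eq_of_le ht.2 with h | h
  · have h2 : ⌊t⌋₊ = n := by
      rw [Nat.floor_eq_iff (by linarith [ht.1])]
      exact ⟨ht.1, h⟩
    rw [h2, h0]
  · have h2 : ⌊t⌋₊ = n + 1 := by
      rw [Nat.floor_eq_iff (by linarith [ht.1])]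
      push_cast
      constructor <;> linarith
    have e1 : t - ((n + 1 : ℕ) : ℝ) = 0 := by push_cast; linarith
    have e2 : t - (n : ℝ) = 1 := by linarith
    rw [h2, h0, e1, e2, crd_zero, crd_one]
    exact cpt_port _ (port_le _) _ _

lemma spath_neg (ω : ℕ → Sym) {t : ℝ} (ht : t ≤ 0) : spath ω t = cmid := by
  unfold spath
  have h1 : ⌊t⌋₊ = 0 := Nat.floor_of_nonpos ht
  rw [h1, max_eq_right ht]
  have h2 : crd (traj ω 0) (traj ω (0 + 1)) (0 - ((0 : ℕ) : ℝ)) = 2 := by
    rw [Nat.cast_zero, sub_zero, crd_zero]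
    show ((2 : ℕ) : ℝ) = 2
    norm_num
  rw [h2]
  exact cpt_two _

lemma spath_L1 (ω : ℕ → Sym) : L1 (spath ω) Set.univ := by
  apply L1.grid
  intro n
  rcases lt_or_ge n 0 with h | h
  · intro x hx y hy hxy
    have h' : (n : ℝ) + 1 ≤ 0 := by exact_mod_cast h
    rw [spath_neg ω (by linarith [hx.2]), spath_neg ω (by linarith [hy.2])]
    simp
  · obtain ⟨m, rfl⟩ : ∃ m : ℕ, n = m := ⟨n.toNat, by omega⟩
    intro x hx y hy hxy
    have hx' : x ∈ Set.Icc (m : ℝ) (m + 1) := by simpa using hx
    have hy' : y ∈ Set.Icc (m : ℝ) (m + 1) := by simpa using hy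
    rw [spath_eq ω m hx', spath_eq ω m hy']
    have g1 := crd_mem (traj ω m) (traj ω (m + 1)) (r := x - m)
      ⟨by linarith [hx'.1], by linarith [hx'.2]⟩
    have g2 := crd_mem (traj ω m) (traj ω (m + 1)) (r := y - m)
      ⟨by linarith [hy'.1], by linarith [hy'.2]⟩
    refine ((cpt_L1 (ω m).2).abs g1 g2).trans (ENNReal.ofReal_le_ofReal ?_)
    have e1 : crd (traj ω m) (traj ω (m + 1)) (x - m) - crd (traj ω m) (traj ω (m + 1)) (y - m) =
        ((port (traj ω (m + 1)) : ℝ) - port (traj ω m)) * (x - y) := by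
      unfold crd; ring
    rw [e1, abs_mul]
    have h1 : |(port (traj ω (m + 1)) : ℝ) - port (traj ω m)| ≤ 1 := slope_le _ _
    have h2 : |x - y| = y - x := by rw [abs_sub_comm, abs_of_nonneg (by linarith)]
    rw [h2]
    have h3 : 0 ≤ y - x := by linarith
    nlinarith

lemma spath_nonloiter (ω : ℕ → Sym) :
    volume {t : ℝ | ∃ _ : 0 ≤ t, chain.IsNode (spath ω t)} = 0 := by
  have hsub : {t : ℝ | ∃ _ : 0 ≤ t, chain.IsNode (spath ω t)} ⊆
      ⋃ n : ℕ, ⋃ v : Fin 8, {t : ℝ | port (traj ω (n + 1)) ≠ port (traj ω n) ∧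
        crd (traj ω n) (traj ω (n + 1)) (t - n) = kap v} := by
    rintro t ⟨ht, hnode⟩
    have h1 : t ∈ Set.Icc (⌊t⌋₊ : ℝ) (⌊t⌋₊ + 1) :=
      ⟨Nat.floor_le ht, (Nat.lt_floor_add_one t).le⟩
    rw [spath_eq ω _ h1] at hnode
    obtain ⟨v, hv⟩ := isNode_cpt (crd_mem _ _ ⟨by linarith [h1.1], by linarith [h1.2]⟩) hnode
    rw [Set.mem_iUnion]
    refine ⟨⌊t⌋₊, ?_⟩
    rw [Set.mem_iUnion]
    refine ⟨v, ?_, hv⟩
    intro hp
    rcases port_nxt (traj ω ⌊t⌋₊) (ω ⌊t⌋₊).1 with (h | h) | ⟨_, h⟩
    · have : port (traj ω (⌊t⌋₊ + 1)) = port (traj ω ⌊t⌋₊) + 1 := h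
      omega
    · have : port (traj ω ⌊t⌋₊) = port (traj ω (⌊t⌋₊ + 1)) + 1 := h
      omega
    · apply kap_ne_port v (port (traj ω ⌊t⌋₊)) h
      rw [← hv]
      unfold crd
      rw [hp]; ring
  apply measure_mono_null hsub
  apply Set.Countable.measure_zero
  apply Set.countable_iUnion
  intro n
  apply Set.countable_iUnion
  intro v
  apply Set.Subsingleton.countable
  rintro s ⟨hp, hs⟩ t ⟨_, ht⟩
  unfold crd at hs ht
  have hne : (port (traj ω (n + 1)) : ℝ) - port (traj ω n) ≠ 0 := by
    rw [sub_ne_zero]; exact_mod_cast hp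
  have h3 : ((port (traj ω (n + 1)) : ℝ) - port (traj ω n)) * (s - n) =
      ((port (traj ω (n + 1)) : ℝ) - port (traj ω n)) * (t - n) := by linarith
  have h4 := mul_left_cancel₀ hne h3
  linarith

/-- the searcher's path as a pure strategy -/
noncomputable def sstrat (ω : ℕ → Sym) : chain.Searcher cmid where
  pos t := spath ω t
  start := spath_neg ω le_rfl
  speed s t := (spath_L1 ω).abs (Set.mem_univ (s : ℝ)) (Set.mem_univ (t : ℝ))
  nonloiter := spath_nonloiter ω

/-- the searcher's mixed strategy -/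
noncomputable def smix : chain.MixedSearcher cmid where
  Ω := ℕ → Sym
  mΩ := inferInstance
  P := PS
  prob := inferInstance
  strat := sstrat
  meas t p r := by
    have h : DepLt (⌊(t : ℝ)⌋₊ + 1) {ω | chain.pathDist p ((sstrat ω).pos t) < r} := by
      intro ω ω' h
      have e : (sstrat ω).pos t = (sstrat ω').pos t := by
        show spath ω t = spath ω' t
        unfold spath
        rw [traj_congr ⌊(t : ℝ)⌋₊ (fun i hi => h i (by omega)),
          traj_congr (⌊(t : ℝ)⌋₊ + 1) (fun i hi => h i hi), h ⌊(t : ℝ)⌋₊ (by omega)]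
      show chain.pathDist p ((sstrat ω).pos t) < r ↔ chain.pathDist p ((sstrat ω').pos t) < r
      rw [e]
    exact h.measurableSet

section Against

variable {w : ℝ} (H : chain.Hider w)

/-- survival in one step -/
def Srv (n : ℕ) (x : St) (s : Sym) : Prop :=
  ∀ r ∈ Set.Icc (0 : ℝ) 1, cpt s.2 (crd x (nxt x s.1) r) ≠ H.pos ((n : ℝ) + r).toNNReal

/-- coordinate of the hider -/
noncomputable def hx (t : ℝ) : ℝ := chx (H.pos t.toNNReal)

/-- cell of a coordinate -/
noncomputable def cell (y : ℝ) : ℕ := if y ≤ 1 then 0 else if y ≤ 2 then 1 else if y ≤ 3 then 2 else 3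

lemma cell_lt (y : ℝ) : cell y < 4 := by
  unfold cell; split_ifs <;> norm_num

lemma cell_lt_iff {y : ℝ} (hy : y ∈ Set.Icc (0 : ℝ) 4) {p : ℕ} (hp : p ≤ 4) (hne : y ≠ p) :
    cell y < p ↔ y < p := by
  have hy1 := hy.1
  have hy2 := hy.2
  unfold cell
  interval_cases p
  · simp only [Nat.not_lt_zero, false_iff, not_lt, Nat.cast_zero]; exact hy1
  · split_ifs with h1 h2 h3
    · simp only [Nat.cast_one] at hne ⊢
      simpa using lt_of_le_of_ne h1 hne
    · simp; linarith
    · simp; linarith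
    · simp; linarith
  · split_ifs with h1 h2 h3
    · simp; linarith
    · simp only [Nat.cast_ofNat] at hne ⊢
      simpa using lt_of_le_of_ne h2 hne
    · simp; linarith
    · simp; linarith
  · split_ifs with h1 h2 h3
    · simp; linarith
    · simp; linarith
    · simp only [Nat.cast_ofNat] at hne ⊢
      simpa using lt_of_le_of_ne h3 hne
    · simp; linarith
  · have h4 : y < ((4 : ℕ) : ℝ) := lt_of_le_of_ne (by exact_mod_cast hy2) hne
    split_ifs <;> simp <;> exact_mod_cast h4

lemma hx_cont : Continuous (hx H) := by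
  have h1 : ∀ s t : ℝ, |hx H s - hx H t| ≤ |w| * |s - t| := by
    intro s t
    have h2 := (chx_lip (H.pos s.toNNReal) (H.pos t.toNNReal)).trans
      (H.speed s.toNNReal t.toNNReal)
    have h3 : |((s.toNNReal : ℝ≥0) : ℝ) - ((t.toNNReal : ℝ≥0) : ℝ)| ≤ |s - t| := by
      rw [Real.coe_toNNReal', Real.coe_toNNReal']
      exact abs_max_sub_max_le_abs s t 0
    have h4 : w * |((s.toNNReal : ℝ≥0) : ℝ) - ((t.toNNReal : ℝ≥0) : ℝ)| ≤ |w| * |s - t| := by
      calc w * |((s.toNNReal : ℝ≥0) : ℝ) - ((t.toNNReal : ℝ≥0) : ℝ)|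
          ≤ |w| * |((s.toNNReal : ℝ≥0) : ℝ) - ((t.toNNReal : ℝ≥0) : ℝ)| :=
            mul_le_mul_of_nonneg_right (le_abs_self w) (abs_nonneg _)
        _ ≤ |w| * |s - t| := mul_le_mul_of_nonneg_left h3 (abs_nonneg _)
    exact (ENNReal.ofReal_le_ofReal_iff (by positivity)).1
      (h2.trans (ENNReal.ofReal_le_ofReal h4))
  have h5 : LipschitzWith (Real.toNNReal |w|) (hx H) := by
    apply LipschitzWith.of_dist_le_mul
    intro s t
    rw [Real.dist_eq, Real.dist_eq, Real.coe_toNNReal _ (abs_nonneg w)]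
    exact h1 s t
  exact h5.continuous

lemma hx_mem (t : ℝ) : hx H t ∈ Set.Icc (0 : ℝ) 4 := chx_mem _

/-- if the searcher survives then the hider is not at the port at the beginning -/
lemma ne_start {n : ℕ} {x : St} {s : Sym} (h : Srv H n x s) : hx H n ≠ port x := by
  intro he
  obtain ⟨β', hβ'⟩ := exists_cpt (H.pos ((n : ℝ) + 0).toNNReal)
  apply h 0 ⟨le_rfl, zero_le_one⟩
  rw [crd_zero, cpt_port _ (port_le x) s.2 β']
  have : chx (H.pos ((n : ℝ) + 0).toNNReal) = port x := by
    rw [add_zero]; exact he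
  rw [← this, hβ']

lemma ne_end {n : ℕ} {x : St} {s : Sym} (h : Srv H n x s) :
    hx H ((n + 1 : ℕ) : ℝ) ≠ port (nxt x s.1) := by
  intro he
  obtain ⟨β', hβ'⟩ := exists_cpt (H.pos ((n : ℝ) + 1).toNNReal)
  apply h 1 ⟨zero_le_one, le_rfl⟩
  rw [crd_one, cpt_port _ (port_le _) s.2 β']
  have : chx (H.pos ((n : ℝ) + 1).toNNReal) = port (nxt x s.1) := by
    have h2 : ((n + 1 : ℕ) : ℝ) = (n : ℝ) + 1 := by push_cast; ring
    rw [h2] at he; exact he
  rw [← this, hβ']

/-- if the hider changes sides then its coordinate agrees with that of the searcher at some time -/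
lemma exists_cross {n : ℕ} {x y : St}
    (h : ¬ ((hx H n < port x) ↔ (hx H ((n + 1 : ℕ) : ℝ) < port y)))
    (h1 : hx H n ≠ port x) (h2 : hx H ((n + 1 : ℕ) : ℝ) ≠ port y) :
    ∃ r ∈ Set.Icc (0 : ℝ) 1, hx H ((n : ℝ) + r) = crd x y r := by
  set φ : ℝ → ℝ := fun r => hx H ((n : ℝ) + r) - crd x y r with hφ
  have hc : Continuous φ := by
    apply Continuous.sub
    · exact (hx_cont H).comp (continuous_const.add continuous_id)
    · unfold crd
      fun_prop
  have e0 : φ 0 = hx H n - port x := by simp [hφ, crd_zero]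
  have e1 : φ 1 = hx H ((n + 1 : ℕ) : ℝ) - port y := by
    simp [hφ, crd_one]
  have hz : (0 : ℝ) ∈ φ '' Set.Icc 0 1 := by
    rcases lt_or_gt_of_ne h1 with g1 | g1
    · have g2 : port y < hx H ((n + 1 : ℕ) : ℝ) := by
        rcases lt_or_gt_of_ne h2 with g | g
        · exact absurd ⟨fun _ => g, fun _ => g1⟩ h
        · exact g
      apply intermediate_value_Icc zero_le_one hc.continuousOn
      rw [e0, e1]
      constructor <;> linarith
    · have g2 : hx H ((n + 1 : ℕ) : ℝ) < port y := by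
        rcases lt_or_gt_of_ne h2 with g | g
        · exact g
        · exact absurd ⟨fun g' => absurd g' (not_lt.2 g1.le), fun g' => absurd g' (not_lt.2 g.le)⟩ h
      apply intermediate_value_Icc' zero_le_one hc.continuousOn
      rw [e0, e1]
      constructor <;> linarith
  obtain ⟨r, hr, hr0⟩ := hz
  exact ⟨r, hr, by simp only [hφ] at hr0; linarith⟩

lemma count_le (n : ℕ) (x : St) (k : Fin 16) :
    sv (Srv H) n x (k, true) + sv (Srv H) n x (k, false) ≤
      (g (port x) (cell (hx H n)) (port (nxt x k)) (cell (hx H ((n + 1 : ℕ) : ℝ))) : ℝ) := by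
  by_cases hs : ∃ β, Srv H n x (k, β)
  · obtain ⟨β, hβ⟩ := hs
    have n1 := ne_start H hβ
    have n2 := ne_end H hβ
    have n2' : hx H ((n + 1 : ℕ) : ℝ) ≠ port (nxt x k) := n2
    have c1 := cell_lt_iff (hx_mem H n) (port_le x) n1
    have c2 := cell_lt_iff (hx_mem H ((n + 1 : ℕ) : ℝ)) (port_le (nxt x k)) n2'
    by_cases hb : Nat.blt (cell (hx H n)) (port x) =
        Nat.blt (cell (hx H ((n + 1 : ℕ) : ℝ))) (port (nxt x k))
    · have hg : g (port x) (cell (hx H n)) (port (nxt x k))
          (cell (hx H ((n + 1 : ℕ) : ℝ))) = 2 := by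
        unfold g
        rw [hb]; simp
      rw [hg]
      have := sv_le_one (Srv H) n x (k, true)
      have := sv_le_one (Srv H) n x (k, false)
      push_cast
      linarith
    · have hcross : ¬ ((hx H n < port x) ↔ (hx H ((n + 1 : ℕ) : ℝ) < port (nxt x k))) := by
        rw [← c1, ← c2]
        intro hiff
        apply hb
        rw [Bool.eq_iff_iff]
        simpa [Nat.blt] using hiff
      obtain ⟨r, hr, hr'⟩ := exists_cross H hcross n1 n2'
      obtain ⟨β', hβ'⟩ := exists_cpt (H.pos ((n : ℝ) + r).toNNReal)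
      have hr2 : chx (H.pos ((n : ℝ) + r).toNNReal) = crd x (nxt x k) r := hr'
      rw [hr2] at hβ'
      have hns : ¬ Srv H n x (k, β') := fun h => h r hr hβ'
      by_cases hp : port x = port (nxt x k)
      · exfalso
        apply hβ r hr
        have e : crd x (nxt x k) r = port x := by
          unfold crd; rw [← hp]; ring
        show cpt β (crd x (nxt x k) r) = _
        rw [← hβ', e]
        exact cpt_port _ (port_le x) _ _
      · have hg : g (port x) (cell (hx H n)) (port (nxt x k))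
            (cell (hx H ((n + 1 : ℕ) : ℝ))) = 1 := by
          unfold g
          have h3 : (Nat.blt (cell (hx H n)) (port x) ==
              Nat.blt (cell (hx H ((n + 1 : ℕ) : ℝ))) (port (nxt x k))) = false := by
            simpa using hb
          have h4 : Nat.beq (port x) (port (nxt x k)) = false := by
            rw [← Bool.not_eq_true]
            exact fun hh => hp (Nat.eq_of_beq_eq_true hh)
          rw [h3, h4]; rfl
        rw [hg]
        push_cast
        have a1 := sv_le_one (Srv H) n x (k, true)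
        have a2 := sv_le_one (Srv H) n x (k, false)
        cases β'
        · have : sv (Srv H) n x (k, false) = 0 := by unfold sv; rw [if_neg hns]
          linarith
        · have : sv (Srv H) n x (k, true) = 0 := by unfold sv; rw [if_neg hns]
          linarith
  · push Not at hs
    have h1 : sv (Srv H) n x (k, true) = 0 := by unfold sv; rw [if_neg (hs true)]
    have h2 : sv (Srv H) n x (k, false) = 0 := by unfold sv; rw [if_neg (hs false)]
    rw [h1, h2]
    simp

/-- the capture time is at most the number of steps survived -/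
lemma captureTime_le (ω : ℕ → Sym) : Network.captureTime (sstrat ω) H ≤
    ∑' n, (Alive (Srv H) n).indicator (fun _ => (1 : ℝ≥0∞)) ω := by
  classical
  by_cases hall : ∀ n, ω ∈ Alive (Srv H) n
  · have : ∑' n, (Alive (Srv H) n).indicator (fun _ => (1 : ℝ≥0∞)) ω = ⊤ := by
      have h1 : ∀ n, (Alive (Srv H) n).indicator (fun _ => (1 : ℝ≥0∞)) ω = 1 := fun n =>
        Set.indicator_of_mem (hall n) _
      simp_rw [h1]
      exact ENNReal.tsum_const_eq_top_of_ne_zero one_ne_zero
    rw [this]; exact le_top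
  · push Not at hall
    have hex : ∃ n, ω ∉ Alive (Srv H) n := hall
    set n0 := Nat.find hex with hn0
    have h0 : ω ∉ Alive (Srv H) n0 := Nat.find_spec hex
    have hlt : ∀ m < n0, ω ∈ Alive (Srv H) m := fun m hm => by
      by_contra hcon
      exact Nat.find_min hex hm hcon
    have hpos : n0 ≠ 0 := by
      intro h
      apply h0
      rw [h]
      intro m hm
      omega
    obtain ⟨m, hm⟩ := Nat.exists_eq_succ_of_ne_zero hpos
    have hns : ¬ Srv H m (traj ω m) (ω m) := by
      intro hs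
      apply h0
      intro i hi
      rcases lt_or_eq_of_le (show i ≤ m by omega) with h | h
      · exact hlt (i + 1) (by omega) i (by omega)
      · rw [h]; exact hs
    unfold Srv at hns
    push Not at hns
    obtain ⟨r, hr, hr'⟩ := hns
    have hmr : (0 : ℝ) ≤ (m : ℝ) + r := by
      have := hr.1
      positivity
    have hcap : (sstrat ω).pos ((m : ℝ) + r).toNNReal = H.pos ((m : ℝ) + r).toNNReal := by
      rw [← hr']
      show spath ω (((m : ℝ) + r).toNNReal : ℝ) = _
      rw [Real.coe_toNNReal _ hmr, spath_eq ω m ⟨by linarith [hr.1], by linarith [hr.2]⟩,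
        add_sub_cancel_left]
      rfl
    calc Network.captureTime (sstrat ω) H
        ≤ ((((m : ℝ) + r).toNNReal : ℝ≥0) : ℝ≥0∞) := iInf₂_le_of_le _ hcap le_rfl
      _ ≤ ((m + 1 : ℕ) : ℝ≥0∞) := by
          have : ((m : ℝ) + r).toNNReal ≤ ((m + 1 : ℕ) : ℝ≥0) := by
            rw [Real.toNNReal_le_iff_le_coe]
            push_cast
            linarith [hr.2]
          exact_mod_cast ENNReal.coe_le_coe.2 this
      _ = ∑ i ∈ Finset.range (m + 1), (Alive (Srv H) i).indicator (fun _ => (1 : ℝ≥0∞)) ω := by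
          rw [Finset.sum_congr rfl (g := fun _ => (1 : ℝ≥0∞))]
          · simp
          · intro i hi
            rw [Set.indicator_of_mem]
            exact hlt i (by have := Finset.mem_range.1 hi; omega)
      _ ≤ _ := ENNReal.sum_le_tsum _

lemma lintegral_capture_le : ∫⁻ ω, Network.captureTime (sstrat ω) H ∂PS ≤
    ENNReal.ofReal (240234 / 32768) := by
  calc ∫⁻ ω, Network.captureTime (sstrat ω) H ∂PS
      ≤ ∫⁻ ω, ∑' n, (Alive (Srv H) n).indicator (fun _ => (1 : ℝ≥0∞)) ω ∂PS :=
        lintegral_mono fun ω => captureTime_le H ω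
    _ = ∑' n, ∫⁻ ω, (Alive (Srv H) n).indicator (fun _ => (1 : ℝ≥0∞)) ω ∂PS := by
        apply lintegral_tsum
        intro n
        exact (measurable_const.indicator (alive_dep (Srv H) n).measurableSet).aemeasurable
    _ = ∑' n, PS (Alive (Srv H) n) := by
        congr 1
        funext n
        rw [lintegral_indicator (alive_dep (Srv H) n).measurableSet]
        simp
    _ ≤ ENNReal.ofReal (240234 / 32768) := by
        apply ENNReal.tsum_le_of_sum_range_le
        intro T
        have h1 := sum_tot_le (Srv H) (fun n => cell (hx H n)) (fun n => cell_lt _)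
          (fun n x k => count_le H n x k) T
        refine le_trans ?_ (ENNReal.ofReal_le_ofReal h1)
        rw [ENNReal.ofReal_sum_of_nonneg (fun n _ => tot_nonneg (Srv H) n)]
        apply Finset.sum_le_sum
        intro n _
        rw [← ENNReal.ofReal_toReal (measure_ne_top PS (Alive (Srv H) n))]
        exact ENNReal.ofReal_le_ofReal (tot_eq (Srv H) n)

end Against

theorem upperValue_chain_le (w : ℝ) :
    chain.upperValue cmid w ≤ ENNReal.ofReal (240234 / 32768) :=
  iInf_le_of_le smix (iSup_le fun H => lintegral_capture_le H)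

theorem ratio_chain_lt (w : ℝ) :
    chain.upperValue cmid w / ENNReal.ofReal chain.totalLength < ENNReal.ofReal (11 / 12) := by
  rw [totalLength_chain]
  calc chain.upperValue cmid w / ENNReal.ofReal (8 - 6 / 10000)
      ≤ ENNReal.ofReal (240234 / 32768) / ENNReal.ofReal (8 - 6 / 10000) :=
        ENNReal.div_le_div_right (upperValue_chain_le w) _
    _ = ENNReal.ofReal (240234 / 32768 / (8 - 6 / 10000)) := by
        exact (ENNReal.ofReal_div_of_pos (by norm_num)).symm
    _ < ENNReal.ofReal (11 / 12) := by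
        rw [ENNReal.ofReal_lt_ofReal_iff (by norm_num)]
        norm_num

end Pool.Agent.MP_95edb1_lc
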